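import Pool.Agent.H702.EY.Glu
import Pool.Agent.H702.EY.Sym

set_option autoImplicit false

/-! # Assembly (helper702, after helper73) -/

namespace Pool.Agent.H702.EY

open Set
open Pool.Agent.R282.EV (Gst)
open Pool.Agent.Y825.EV (Shallow)

/-! ### Symmetries of the glued complex -/

/-- type preserving symmetries. -/
def good (σ : Equiv.Perm VV) : Prop := (∀ x, tV (σ x) = tV x) ∧ ∀ A : Set VV, SS (σ '' A) ↔ SS A

theorem good_refl : good (Equiv.refl _) := ⟨fun _ => rfl, fun A => by simp⟩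

theorem good_trans {σ τ : Equiv.Perm VV} (h1 : good σ) (h2 : good τ) : good (σ.trans τ) := by
  refine ⟨fun x => (h2.1 _).trans (h1.1 x), fun A => ?_⟩
  have : (σ.trans τ) '' A = τ '' (σ '' A) := by
    rw [Set.image_image]; rfl
  rw [this, h2.2, h1.2]

theorem good_symm {σ : Equiv.Perm VV} (h : good σ) : good σ.symm := by
  refine ⟨fun x => ?_, fun A => ?_⟩
  · have := h.1 (σ.symm x)
    rw [σ.apply_symm_apply] at this
    exact this.symm
  · rw [← h.2, Set.image_image]
    simp

/-- The action of a generator. -/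
def sg (c : Fin 2) : Equiv.Perm VV := Equiv.sumCongr (gen c) (pW c)

theorem sg_emb (c : Fin 2) (g : Fin 60) (i : Fin 13) : sg c (emb g i) = emb (piF c g) i := by
  rcases three i with h | h | h
  · rw [emb_old _ i h, emb_old _ i h, pm_pi]
    rfl
  · rw [h, emb_11, emb_11, v1_pi]
    rfl
  · rw [h, emb_12, emb_12, v2_pi]
    rfl

theorem good_sg (c : Fin 2) : good (sg c) := by
  refine ⟨?_, fun A => ?_⟩
  · rintro (x | p)
    · exact t0_gen c x
    · rfl
  · have key : ∀ g : Fin 60,
        ((∀ i, Sum.inr i ∈ sg c '' A → bl i = co (piF c g)) ∧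
        MM (emb (piF c g) ⁻¹' (sg c '' A))) ↔
        ((∀ i, Sum.inr i ∈ A → bl i = co g) ∧ MM (emb g ⁻¹' A)) := by
      intro g
      have e : emb (piF c g) ⁻¹' (sg c '' A) = emb g ⁻¹' A := by
        ext i
        constructor
        · rintro ⟨y, hy, hyi⟩
          rw [← sg_emb] at hyi
          have := (sg c).injective hyi
          rw [this] at hy
          exact hy
        · intro hi
          exact ⟨emb g i, hi, sg_emb c g i⟩
      rw [e]
      refine and_congr_left fun _ => ?_
      constructor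
      · intro h i hij
        have h1 := h (wF c i) ⟨_, hij, rfl⟩
        rwa [bl_pi] at h1
      · rintro h i ⟨y, hy, hyi⟩
        rcases y with x | i'
        · exact absurd hyi (by simp [sg])
        · have h3 : wF c i' = i := Sum.inr_injective hyi
          rw [← h3, bl_pi]
          exact h i' hy
    constructor
    · rintro ⟨g, hg⟩
      have h1 := key (pvF c g)
      rw [pi_pv] at h1
      exact ⟨_, h1.1 hg⟩
    · rintro ⟨g, hg⟩
      exact ⟨_, (key g).2 hg⟩

/-- connected by a symmetry. -/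
def Rch (u v : VV) : Prop := ∃ σ, good σ ∧ σ u = v

theorem Rch.refl (u : VV) : Rch u u := ⟨_, good_refl, rfl⟩

theorem Rch.trans {u v w : VV} (h1 : Rch u v) (h2 : Rch v w) : Rch u w := by
  obtain ⟨σ, hσ, rfl⟩ := h1
  obtain ⟨τ, hτ, rfl⟩ := h2
  exact ⟨_, good_trans hσ hτ, rfl⟩

theorem Rch.symm {u v : VV} (h : Rch u v) : Rch v u := by
  obtain ⟨σ, hσ, rfl⟩ := h
  exact ⟨_, good_symm hσ, σ.symm_apply_apply u⟩

theorem rch_gen (c : Fin 2) (x : Fin 11) : Rch (Sum.inl x) (Sum.inl (gen c x)) :=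
  ⟨_, good_sg c, rfl⟩

theorem rch_pm (g : Fin 60) : ∀ x : Fin 11, Rch (Sum.inl x) (Sum.inl (pm g x)) := by
  refine gen_ind (fun g => ∀ x : Fin 11, Rch (Sum.inl x) (Sum.inl (pm g x))) ?_ ?_ g
  · intro x
    rw [pm_zero]
    exact Rch.refl _
  · intro c g h x
    rw [pm_pi]
    exact (h x).trans (rch_gen c _)

theorem rch_rt (x : Fin 11) : Rch (Sum.inl (rt x)) (Sum.inl x) := by
  obtain ⟨g, h⟩ := rt_reach x
  have := rch_pm g (rt x)
  rwa [h] at this

theorem rch_v1 (g : Fin 60) : Rch (Sum.inr (v1 0)) (Sum.inr (v1 g)) := by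
  refine gen_ind (fun g => Rch (Sum.inr (v1 0)) (Sum.inr (v1 g))) (Rch.refl _) ?_ g
  intro c g h
  rw [v1_pi]
  exact h.trans ⟨_, good_sg c, rfl⟩

theorem rch_new (i : Fin 30) : Rch (Sum.inr (v1 0)) (Sum.inr i) := by
  have := rch_v1 (ga i)
  rwa [(ga_spec i).1] at this

theorem rch_of_type (u v : VV) (h : tV u = tV v) : Rch u v := by
  rcases u with x | g <;> rcases v with y | g'
  · have h1 : rt x = rt y := by
      have h2 : t0 x = t0 y := h
      have key : ∀ x y : Fin 11, t0 x = t0 y → rt x = rt y := by decide +kernel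
      exact key x y h2
    have h3 := rch_rt y
    rw [← h1] at h3
    exact (rch_rt x).symm.trans h3
  · have h1 : t0 x = 2 := h
    have := t0_lt x
    omega
  · have h1 : 2 = t0 y := h
    have := t0_lt y
    omega
  · exact (rch_new g).symm.trans (rch_new g')

/-! ### Dummy types -/

section dummy

variable (d : ℕ)

/-- types with dummies. -/
def tN : VV ⊕ Fin d → ℕ
  | Sum.inl v => tV v
  | Sum.inr i => 3 + i.val

theorem tV_lt (v : VV) : tV v < 3 := by
  rcases v with x | p
  · have := t0_lt x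
    show t0 x < 3
    omega
  · show 2 < 3
    omega

theorem tN_lt (v : VV ⊕ Fin d) : tN d v < d + 3 := by
  rcases v with v | i
  · have := tV_lt v
    show tV v < d + 3
    omega
  · have := i.2
    show 3 + i.val < d + 3
    omega

/-- types in `ZMod (d + 3)`. -/
def tZ (v : VV ⊕ Fin d) : ZMod (d + 3) := (tN d v : ZMod (d + 3))

theorem tZ_val (v : VV ⊕ Fin d) : (tZ d v).val = tN d v := by
  unfold tZ
  rw [ZMod.val_natCast, Nat.mod_eq_of_lt (tN_lt d v)]

theorem tZ_eq (v : VV ⊕ Fin d) (i : ZMod (d + 3)) : tZ d v = i ↔ tN d v = i.val := by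
  rw [← tZ_val]
  exact ⟨fun h => by rw [h], fun h => ZMod.val_injective _ h⟩

theorem w1_gst {V D I I' : Type} {typ : V → I} {f : Set V → Prop} (typ' : V ⊕ D → I') (F : I → I')
    (hF : ∀ v, typ' (Sum.inl v) = F (typ v)) {T N : Set V} (h : W1 typ f T N) :
    W1 typ' (Gst (D := D) f) (Sum.inl '' T) (Sum.inl '' N) := by
  induction h with
  | leaf T N w hT hN u hu huv h =>
    refine W1.leaf _ _ (Sum.inl w) ?_ ?_ (Sum.inl u) ⟨u, hu, rfl⟩ ?_ ?_
    · rintro ⟨x, hx, hxw⟩
      exact hT (Sum.inl_injective hxw ▸ hx)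
    · rintro ⟨x, hx, hxw⟩
      exact hN (Sum.inl_injective hxw ▸ hx)
    · rw [hF, hF, huv]
    · intro X hTX hXN
      have h1 := h (Sum.inl ⁻¹' X) (fun x hx => hTX ⟨x, hx, rfl⟩) (by
        rw [Set.disjoint_left]
        intro x hx hxN
        exact Set.disjoint_left.1 hXN hx ⟨x, hxN, rfl⟩)
      have e1 : (Sum.inl ⁻¹' (insert (Sum.inl w) X) : Set V) = insert w (Sum.inl ⁻¹' X) := by
        ext x
        simp
      have e2 : (Sum.inl ⁻¹' (X \ {Sum.inl w}) : Set V) = (Sum.inl ⁻¹' X) \ {w} := by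
        ext x
        simp
      unfold Gst
      rw [e1, e2, h1]
      refine and_congr_right fun _ => forall_congr' fun j => ?_
      simp
  | query T N w hT hN _ _ ih1 ih2 =>
    refine W1.query _ _ (Sum.inl w) ?_ ?_ ?_ ?_
    · rintro ⟨x, hx, hxw⟩
      exact hT (Sum.inl_injective hxw ▸ hx)
    · rintro ⟨x, hx, hxw⟩
      exact hN (Sum.inl_injective hxw ▸ hx)
    · rw [Set.image_insert_eq] at ih1
      exact ih1
    · rw [Set.image_insert_eq] at ih2
      exact ih2

/-! ### Number of vertices of a type -/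

theorem card_fib_V : ∀ n : Fin 3, Nat.card {v : VV // tV v = n.val} =
    (![5, 6, 30] : Fin 3 → ℕ) n := by
  intro n
  rw [Nat.card_eq_fintype_card]
  revert n
  decide +kernel

theorem card_fib (n : ℕ) : Nat.card {v : VV ⊕ Fin d // tN d v = n} =
    Nat.card {v : VV // tV v = n} + Nat.card {i : Fin d // 3 + i.val = n} := by
  rw [← Nat.card_sum]
  refine Nat.card_congr ?_
  exact Equiv.subtypeSum

theorem prod_fib : ∏ i : ZMod (d + 3), Nat.card {v : VV ⊕ Fin d // tZ d v = i} = 900 := by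
  have h1 : ∀ i : ZMod (d + 3), Nat.card {v : VV ⊕ Fin d // tZ d v = i} =
      Nat.card {v : VV ⊕ Fin d // tN d v = i.val} := by
    intro i
    refine Nat.card_congr (Equiv.subtypeEquivRight fun v => tZ_eq d v i)
  have h2 : ∏ i : ZMod (d + 3), Nat.card {v : VV ⊕ Fin d // tN d v = i.val} =
      ∏ n ∈ Finset.range (d + 3), Nat.card {v : VV ⊕ Fin d // tN d v = n} :=
    Fin.prod_univ_eq_prod_range (fun n => Nat.card {v : VV ⊕ Fin d // tN d v = n}) (d + 3)
  rw [Finset.prod_congr rfl fun i _ => h1 i, h2, add_comm d 3, Finset.prod_range_add]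
  have h3 : ∀ m ∈ Finset.range d, Nat.card {v : VV ⊕ Fin d // tN d v = 3 + m} = 1 := by
    intro m hm
    rw [Finset.mem_range] at hm
    rw [card_fib]
    have e1 : Nat.card {v : VV // tV v = 3 + m} = 0 := by
      rw [Nat.card_eq_zero]
      left
      refine ⟨fun v => ?_⟩
      have := tV_lt v.1
      have := v.2
      omega
    have e2 : Nat.card {i : Fin d // 3 + i.val = 3 + m} = 1 := by
      rw [Nat.card_eq_one_iff_unique]
      refine ⟨⟨fun a b => ?_⟩, ⟨⟨m, hm⟩, rfl⟩⟩
      have h1 := a.2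
      have h2 := b.2
      exact Subtype.ext (Fin.ext (by omega))
    rw [e1, e2]
  have h4 : ∀ n ∈ Finset.range 3, Nat.card {v : VV ⊕ Fin d // tN d v = n} =
      Nat.card {v : VV // tV v = n} := by
    intro n hn
    rw [Finset.mem_range] at hn
    rw [card_fib]
    have e1 : Nat.card {i : Fin d // 3 + i.val = n} = 0 := by
      rw [Nat.card_eq_zero]
      left
      refine ⟨fun v => ?_⟩
      have := v.2
      omega
    rw [e1, add_zero]
  rw [Finset.prod_congr rfl h3, Finset.prod_const_one, mul_one, Finset.prod_congr rfl h4]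
  have h5 : ∏ n ∈ Finset.range 3, Nat.card {v : VV // tV v = n} =
      ∏ n : Fin 3, Nat.card {v : VV // tV v = n.val} :=
    (Fin.prod_univ_eq_prod_range (fun n => Nat.card {v : VV // tV v = n}) 3).symm
  rw [h5, Finset.prod_congr rfl fun n _ => card_fib_V n]
  decide +kernel

/-- For every `t ≥ 3` the number `m = 900 t` works. -/
theorem main (t : ℕ) (ht : 3 ≤ t) : 2 ≤ t * 900 ∧ ∀ r j : ℕ, 1 ≤ r →
    Shallow (r * (t * 900) ^ j) (r * (t * 900 - 1) ^ j) := by
  obtain ⟨d, rfl⟩ : ∃ d, t = d + 3 := ⟨t - 3, by omega⟩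
  have : NeZero (d + 3) := ⟨by omega⟩
  have hsurj : Function.Surjective (tZ d) := by
    intro i
    have hi : i.val < d + 3 := ZMod.val_lt i
    by_cases h7 : 3 ≤ i.val
    · refine ⟨Sum.inr ⟨i.val - 3, by omega⟩, ?_⟩
      rw [tZ_eq]
      show 3 + (i.val - 3) = i.val
      omega
    · have key : ∀ n : Fin 3, ∃ v : VV, tV v = n.val := by
        intro n
        fin_cases n
        · exact ⟨Sum.inl 0, rfl⟩
        · exact ⟨Sum.inl 5, rfl⟩
        · exact ⟨Sum.inr (v1 0), rfl⟩
      obtain ⟨v, hv⟩ := key ⟨i.val, by omega⟩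
      refine ⟨Sum.inl v, ?_⟩
      rw [tZ_eq]
      exact hv
  have htr : ∀ u v, tZ d u = tZ d v → ∃ g : Equiv.Perm (VV ⊕ Fin d), g u = v ∧
      (∀ x, tZ d (g x) = tZ d x) ∧ ∀ A, Gst (D := Fin d) SS (g '' A) ↔ Gst (D := Fin d) SS A := by
    intro u v huv
    rw [tZ_eq, tZ_val] at huv
    rcases u with x | j <;> rcases v with y | j'
    · obtain ⟨σ, hσ, hσx⟩ := rch_of_type x y huv
      refine ⟨Equiv.sumCongr σ (Equiv.refl _), ?_, ?_, ?_⟩
      · simp [hσx]
      · rintro (z | j)
        · rw [tZ_eq, tZ_val]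
          exact hσ.1 z
        · rfl
      · intro A
        have e1 : Sum.inl ⁻¹' ((Equiv.sumCongr σ (Equiv.refl (Fin d))) '' A) =
            σ '' (Sum.inl ⁻¹' A) := by
          ext z
          constructor
          · rintro ⟨w, hw, hwz⟩
            rcases w with w | w
            · exact ⟨w, hw, Sum.inl_injective hwz⟩
            · exact absurd hwz (by simp)
          · rintro ⟨w, hw, rfl⟩
            exact ⟨Sum.inl w, hw, rfl⟩
        have e2 : ∀ j : Fin d, (Sum.inr j ∈
            (Equiv.sumCongr σ (Equiv.refl (Fin d))) '' A) ↔ Sum.inr j ∈ A := by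
          intro j
          constructor
          · rintro ⟨w, hw, hwz⟩
            rcases w with w | w
            · exact absurd hwz (by simp)
            · have : w = j := Sum.inr_injective hwz
              exact this ▸ hw
          · intro hj
            exact ⟨Sum.inr j, hj, rfl⟩
        have e3 := hσ.2 (Sum.inl ⁻¹' A)
        rw [← e1] at e3
        exact and_congr e3 (forall_congr' fun j => not_congr (e2 j))
    · have := tV_lt x
      have h1 : tV x = 3 + j'.val := huv
      omega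
    · have := tV_lt y
      have h1 : 3 + j.val = tV y := huv
      omega
    · have h1 : 3 + j.val = 3 + j'.val := huv
      have h2 : j = j' := Fin.ext (by omega)
      subst h2
      exact ⟨Equiv.refl _, rfl, fun _ => rfl, fun A => by simp⟩
  have hF : ∀ v : VV, tZ d (Sum.inl v) = (fun n : ℕ => (n : ZMod (d + 3))) (tV v) := fun v => rfl
  have hw1 := w1_gst (D := Fin d) (tZ d) _ hF w1_a
  have hw2 := w1_gst (D := Fin d) (tZ d) _ hF w1_ab
  rw [Set.image_empty, Set.image_singleton] at hw1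
  rw [Set.image_singleton, Set.image_singleton] at hw2
  refine assemble (tZ d) (Gst (D := Fin d) SS) hsurj ?_ ?_ htr (Sum.inl (Sum.inr 1))
    (Sum.inl (Sum.inr 2)) (Sum.inl (Sum.inr 3)) rfl rfl ?_ ?_ ?_ hw1 hw2 _ ?_
  · exact fun A B hAB hB => ⟨SS_down _ _ (Set.preimage_mono hAB) hB.1, fun j hj => hB.2 j (hAB hj)⟩
  · exact ⟨by rw [Set.preimage_empty]; exact SS_empty, fun j hj => hj⟩
  · intro h
    exact pts.2.2.2.1 (Sum.inr_injective (Sum.inl_injective h))
  · intro h
    exact pts.2.2.2.2 (Sum.inr_injective (Sum.inl_injective h))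
  · rintro ⟨h, _⟩
    exact SS_two pts.2.2.1 _ (Or.inl rfl) (Or.inr rfl) h
  · rw [prod_fib]

end dummy

end Pool.Agent.H702.EY
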