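import Mathlib

set_option autoImplicit false

/-! # A checker for winning strategies of a complex given by a bitmap (helper73) -/

namespace Pool.Agent.H702.EY

open Set

/-- Winning strategies for a complex `M` all whose leaves satisfy `Q`. -/
inductive WM {V : Type} (Q : Set V → Set V → V → Prop) (M : Set V → Prop) :
    Set V → Set V → Prop
  | leaf (T N : Set V) (v : V) (hT : v ∉ T) (hN : v ∉ N) (hQ : Q T N v)
      (h : ∀ X : Set V, T ⊆ X → Disjoint X N → (M (insert v X) ↔ M (X \ {v}))) : WM Q M T N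
  | query (T N : Set V) (v : V) (hT : v ∉ T) (hN : v ∉ N) :
      WM Q M (insert v T) N → WM Q M T (insert v N) → WM Q M T N

/-- Bitmap of all subsets of `range n` all whose elements satisfy `p`. -/
def bm (p : ℕ → Bool) : ℕ → ℕ
  | 0 => 1
  | n + 1 => if p n then bm p n ||| (bm p n <<< 2 ^ n) else bm p n

theorem bm_testBit (p : ℕ → Bool) : ∀ (n : ℕ) (Y : Finset ℕ), (∀ i ∈ Y, i < n ∧ p i = true) →
    (bm p n).testBit (∑ i ∈ Y, 2 ^ i) = true := by
  intro n
  induction n with
  | zero =>
    intro Y hY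
    have : Y = ∅ := by
      rw [Finset.eq_empty_iff_forall_notMem]
      intro i hi
      have := (hY i hi).1
      omega
    subst this
    simp [bm]
  | succ n ih =>
    intro Y hY
    by_cases hn : n ∈ Y
    · have hp : p n = true := (hY n hn).2
      rw [bm, if_pos hp, Nat.testBit_or, Nat.testBit_shiftLeft]
      have h1 : ∑ i ∈ Y, 2 ^ i = 2 ^ n + ∑ i ∈ Y.erase n, 2 ^ i :=
        (Finset.add_sum_erase _ _ hn).symm
      rw [h1, Nat.add_sub_cancel_left]
      have h2 := ih (Y.erase n) (fun i hi => by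
        rw [Finset.mem_erase] at hi
        have := hY i hi.2
        exact ⟨by omega, this.2⟩)
      rw [h2]
      simp
    · have h2 := ih Y (fun i hi => by
        have := hY i hi
        have hne : i ≠ n := fun e => hn (e ▸ hi)
        exact ⟨by omega, this.2⟩)
      rw [bm]
      split_ifs
      · rw [Nat.testBit_or, h2]; simp
      · exact h2

open Classical in
/-- the elements of a set as natural numbers. -/
noncomputable def toN {n : ℕ} (X : Set (Fin n)) : Finset ℕ :=
  (Finset.range n).filter fun i => ∃ h : i < n, (⟨i, h⟩ : Fin n) ∈ X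

theorem mem_toN {n : ℕ} (X : Set (Fin n)) (i : ℕ) :
    i ∈ toN X ↔ ∃ h : i < n, (⟨i, h⟩ : Fin n) ∈ X := by
  simp only [toN, Finset.mem_filter, Finset.mem_range]
  constructor
  · exact fun h => h.2
  · exact fun h => ⟨h.1, h⟩

/-- the code of a set. -/
noncomputable def code {n : ℕ} (X : Set (Fin n)) : ℕ := ∑ i ∈ toN X, 2 ^ i

theorem code_insert {n : ℕ} (X : Set (Fin n)) (w : Fin n) (hw : w ∉ X) :
    code (insert w X) = 2 ^ w.val + code X := by
  have h1 : toN (insert w X) = insert w.val (toN X) := by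
    ext i
    rw [mem_toN, Finset.mem_insert, mem_toN]
    constructor
    · rintro ⟨h, h2 | h2⟩
      · left; rw [← h2]
      · right; exact ⟨h, h2⟩
    · rintro (h | ⟨h, h2⟩)
      · subst h; exact ⟨w.2, Or.inl rfl⟩
      · exact ⟨h, Or.inr h2⟩
  have h2 : w.val ∉ toN X := by
    rw [mem_toN]
    rintro ⟨h, h2⟩
    exact hw h2
  unfold code
  rw [h1, Finset.sum_insert h2]

theorem code_empty {n : ℕ} : code (∅ : Set (Fin n)) = 0 := by
  have : toN (∅ : Set (Fin n)) = ∅ := by
    ext i
    rw [mem_toN]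
    simp
  unfold code
  rw [this, Finset.sum_empty]

theorem bm_code {n : ℕ} (p : ℕ → Bool) (X : Set (Fin n)) (h : ∀ i ∈ X, p i.val = true) :
    (bm p n).testBit (code X) = true := by
  apply bm_testBit
  intro i hi
  rw [mem_toN] at hi
  obtain ⟨h1, h2⟩ := hi
  exact ⟨h1, h _ h2⟩

/-- certificate trees. -/
inductive Tr
  | l (w : ℕ)
  | q (v : ℕ) (p a : Tr)

/-- bitmap of the subsets of `range n` without `v`. -/
def msk (n v : ℕ) : ℕ := bm (fun i => !Nat.beq i v) n

theorem msk_code {n : ℕ} (v : Fin n) (X : Set (Fin n)) (h : v ∉ X) :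
    (msk n v.val).testBit (code X) = true := by
  apply bm_code
  intro i hi
  have hne : i.val ≠ v.val := fun e => h (Fin.ext e ▸ hi)
  simp only [Bool.not_eq_true']
  rw [← Bool.not_eq_true, Nat.beq_eq]
  exact hne

/-- the set with a bitmask. -/
def st (n m : ℕ) : Set (Fin n) := {i | m.testBit i.val = true}

theorem st_or {n : ℕ} (m : ℕ) (v : Fin n) : st n (m ||| 2 ^ v.val) = insert v (st n m) := by
  ext i
  simp only [st, mem_ofPred_eq, Nat.testBit_or, Bool.or_eq_true, mem_insert_iff,
    Nat.testBit_two_pow]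
  constructor
  · rintro (h | h)
    · exact Or.inr h
    · left
      rw [decide_eq_true_eq] at h
      exact Fin.ext h.symm
  · rintro (h | h)
    · right; rw [h]; simp
    · exact Or.inl h

theorem st_zero {n : ℕ} : st n 0 = ∅ := by
  ext i; simp [st]

variable {n : ℕ} (M : Set (Fin n) → Prop)

/-- `C` is the bitmap of the complex `M` in the state `(T, N)` and `K` is a bitmap which has a
bit at all the sets of unqueried vertices. -/
structure Inv (C K : ℕ) (T N : Set (Fin n)) : Prop where
  c : ∀ X : Set (Fin n), Disjoint X (T ∪ N) → (M (X ∪ T) ↔ C.testBit (code X) = true)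
  k : ∀ X : Set (Fin n), Disjoint X (T ∪ N) → K.testBit (code X) = true

variable {M}

theorem Inv.pres {C K : ℕ} {T N : Set (Fin n)} (h : Inv M C K T N) (v : Fin n) (hT : v ∉ T)
    (hN : v ∉ N) : Inv M (C >>> 2 ^ v.val) (K &&& msk n v.val) (insert v T) N := by
  constructor
  · intro X hX
    have hvX : v ∉ X := fun h => Set.disjoint_left.1 hX h (Or.inl (Or.inl rfl))
    have h1 := h.c (insert v X) (by
      rw [Set.disjoint_left]
      rintro x (hx | hx) hx2
      · subst hx; exact hx2.elim hT hN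
      · exact Set.disjoint_left.1 hX hx (hx2.imp (fun h => Or.inr h) id))
    have e : insert v X ∪ T = X ∪ insert v T := by
      ext x; simp only [mem_union, mem_insert_iff]; tauto
    rw [e] at h1
    rw [h1, code_insert X v hvX, Nat.testBit_shiftRight]
  · intro X hX
    have hvX : v ∉ X := fun h => Set.disjoint_left.1 hX h (Or.inl (Or.inl rfl))
    rw [Nat.testBit_and, msk_code v X hvX, Bool.and_true]
    apply h.k
    rw [Set.disjoint_left]
    intro x hx hx2
    exact Set.disjoint_left.1 hX hx (hx2.imp (fun h => Or.inr h) id)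

theorem Inv.abs {C K : ℕ} {T N : Set (Fin n)} (h : Inv M C K T N) (v : Fin n) :
    Inv M C (K &&& msk n v.val) T (insert v N) := by
  have key : ∀ X : Set (Fin n), Disjoint X (T ∪ insert v N) → Disjoint X (T ∪ N) := by
    intro X hX
    rw [Set.disjoint_left]
    intro x hx hx2
    exact Set.disjoint_left.1 hX hx (hx2.imp id (fun h => Or.inr h))
  constructor
  · intro X hX
    exact h.c X (key X hX)
  · intro X hX
    have hvX : v ∉ X := fun h => Set.disjoint_left.1 hX h (Or.inr (Or.inl rfl))
    rw [Nat.testBit_and, msk_code v X hvX, Bool.and_true]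
    exact h.k X (key X hX)

/-- The checker; `q t m w` is the condition for the leaf `w`. -/
def chk (n : ℕ) (q : ℕ → ℕ → ℕ → Bool) : Tr → ℕ → ℕ → ℕ → ℕ → Bool
  | .l w, C, K, t, m => Nat.ble (w + 1) n && !t.testBit w && !m.testBit w && q t m w &&
      Nat.beq ((C ^^^ (C >>> 2 ^ w)) &&& (K &&& msk n w)) 0
  | .q v p a, C, K, t, m => Nat.ble (v + 1) n && !t.testBit v && !m.testBit v &&
      chk n q p (C >>> 2 ^ v) (K &&& msk n v) (t ||| 2 ^ v) m &&
      chk n q a C (K &&& msk n v) t (m ||| 2 ^ v)

theorem chk_sound (Q : Set (Fin n) → Set (Fin n) → Fin n → Prop) (q : ℕ → ℕ → ℕ → Bool)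
    (hq : ∀ t m w (hw : w < n), q t m w = true → Q (st n t) (st n m) ⟨w, hw⟩) :
    ∀ (tr : Tr) (C K t m : ℕ), chk n q tr C K t m = true → Inv M C K (st n t) (st n m) →
      WM Q M (st n t) (st n m) := by
  intro tr
  induction tr with
  | l w =>
    intro C K t m h hI
    simp only [chk, Bool.and_eq_true, Nat.ble_eq, Bool.not_eq_true', Nat.beq_eq] at h
    obtain ⟨⟨⟨⟨hw, ht⟩, hm⟩, hqq⟩, hz⟩ := h
    have hw' : w < n := hw
    have hT : (⟨w, hw'⟩ : Fin n) ∉ st n t := by
      simp [st, ht]
    have hN : (⟨w, hw'⟩ : Fin n) ∉ st n m := by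
      simp [st, hm]
    refine WM.leaf _ _ ⟨w, hw'⟩ hT hN (hq t m w hw' hqq) ?_
    intro X hTX hXN
    set v : Fin n := ⟨w, hw'⟩ with hv
    set Y : Set (Fin n) := X \ (insert v (st n t)) with hY
    have hvY : v ∉ Y := fun h => h.2 (Or.inl rfl)
    have hYd : Disjoint Y (st n t ∪ st n m) := by
      rw [Set.disjoint_left]
      rintro x hx (hx2 | hx2)
      · exact hx.2 (Or.inr hx2)
      · exact Set.disjoint_left.1 hXN hx.1 hx2
    have hYd2 : Disjoint (insert v Y) (st n t ∪ st n m) := by
      rw [Set.disjoint_left]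
      rintro x (hx | hx) hx2
      · subst hx; exact hx2.elim hT hN
      · exact Set.disjoint_left.1 hYd hx hx2
    have e1 : X \ {v} = Y ∪ st n t := by
      ext x
      simp only [hY, mem_sdiff, mem_insert_iff, mem_singleton_iff, mem_union]
      constructor
      · rintro ⟨h1, h2⟩
        by_cases h3 : x ∈ st n t
        · exact Or.inr h3
        · exact Or.inl ⟨h1, fun h => h.elim h2 h3⟩
      · rintro (h | h)
        · exact ⟨h.1, fun h2 => h.2 (Or.inl h2)⟩
        · exact ⟨hTX h, fun h2 => hT (h2 ▸ h)⟩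
    have e2 : insert v X = insert v Y ∪ st n t := by
      ext x
      simp only [hY, mem_sdiff, mem_insert_iff, mem_union]
      constructor
      · rintro (h | h)
        · exact Or.inl (Or.inl h)
        · by_cases h3 : x ∈ st n t
          · exact Or.inr h3
          · by_cases h4 : x = v
            · exact Or.inl (Or.inl h4)
            · exact Or.inl (Or.inr ⟨h, fun h => h.elim h4 h3⟩)
      · rintro ((h | h) | h)
        · exact Or.inl h
        · exact Or.inr h.1
        · exact Or.inr (hTX h)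
    rw [e1, e2, hI.c _ hYd, hI.c _ hYd2, code_insert Y v hvY]
    have h1 : ((C ^^^ (C >>> 2 ^ w)) &&& (K &&& msk n w)).testBit (code Y) = false := by
      rw [hz]; simp
    rw [Nat.testBit_and, Nat.testBit_and, hI.k _ hYd, msk_code v Y hvY, Nat.testBit_xor,
      Nat.testBit_shiftRight] at h1
    simp only [Bool.and_true] at h1
    rw [bne_eq_false_iff_eq] at h1
    rw [h1]
  | q v p a ih1 ih2 =>
    intro C K t m h hI
    simp only [chk, Bool.and_eq_true, Nat.ble_eq, Bool.not_eq_true'] at h
    obtain ⟨⟨⟨⟨hw, ht⟩, hm⟩, h1⟩, h2⟩ := h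
    have hw' : v < n := hw
    have hT : (⟨v, hw'⟩ : Fin n) ∉ st n t := by
      simp [st, ht]
    have hN : (⟨v, hw'⟩ : Fin n) ∉ st n m := by
      simp [st, hm]
    have g1 := ih1 _ _ _ _ h1 (by
      have := hI.pres ⟨v, hw'⟩ hT hN
      rwa [← st_or] at this)
    have g2 := ih2 _ _ _ _ h2 (by
      have := hI.abs ⟨v, hw'⟩
      rwa [← st_or] at this)
    rw [show (2 : ℕ) ^ v = 2 ^ (⟨v, hw'⟩ : Fin n).val from rfl, st_or] at g1 g2
    exact WM.query _ _ ⟨v, hw'⟩ hT hN g1 g2

end Pool.Agent.H702.EY
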