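import Pool.Agent.H702.EY.Chk

set_option autoImplicit false

/-! # The complex on 13 vertices and its strategies (helper702; found by computer search)

The vertices 0-10 span a contractible complex invariant under `A5` acting with the orbits
`{0, ..., 4}` and `{5, ..., 10}`; the complex is invariant under a subgroup of order 4 of `A5`
which exchanges the two new vertices 11 and 12. -/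

namespace Pool.Agent.H702.EY

/-- The facets, as bitmasks: the vertices 0-10 are old, 11 and 12 are new. -/
def fct : List ℕ := [
  2539, 2541, 2550, 2553, 2556, 2791, 2795, 2797, 2798, 2919, 2931, 2933, 2934, 2990, 2995, 2997,
  3001, 3002, 3021, 3022, 3027, 3030, 3034, 3036, 3271, 3307, 3310, 3315, 3318, 3321, 3324, 3430,
  3437, 3445, 3449, 3452, 3499, 3502, 3509, 3510, 3514, 3516, 3534, 3539, 3542, 3548, 3691, 3694,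
  3701, 3702, 3750, 3755, 3763, 3769, 3770, 3787, 3790, 3795, 3798, 3801, 3804, 3847, 3885, 3886,
  3893, 3894, 3897, 3898, 3917, 3918, 3925, 3926, 3929, 3930, 3981, 3982, 3990, 3994, 4473, 4589,
  4598, 4602, 4604, 4793, 4839, 4846, 4851, 4853, 4858, 4860, 4967, 4971, 4973, 4982, 4986, 4988,
  5038, 5043, 5050, 5052, 5069, 5070, 5075, 5078, 5082, 5084, 5351, 5363, 5365, 5366, 5368, 5479,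
  5483, 5485, 5494, 5498, 5500, 5547, 5550, 5557, 5558, 5562, 5564, 5575, 5579, 5587, 5590, 5596,
  5739, 5749, 5754, 5756, 5799, 5806, 5811, 5813, 5818, 5820, 5837, 5845, 5849, 5852, 5927, 5931,
  5933, 5934, 5944, 5963, 5971, 5977, 5978, 6023, 6029, 6030, 6037, 6042, 6381, 6382, 6390, 6396,
  6507, 6524, 6571, 6574, 6581, 6582, 6586, 6588, 6603, 6606, 6614, 6618, 6620, 6631, 6633, 6634,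
  6643, 6644, 6648, 6759, 6763, 6773, 6837, 6842, 6859, 6861, 6862, 6869, 6876, 6886, 6890, 6892,
  6958, 6963, 6966, 6970, 6987, 6995, 6997, 6998, 7002, 7014, 7026, 7028, 7054, 7061, 7062, 7066,
  7068, 7079, 7082, 7085, 7089, 7092, 7096, 7111, 7114, 7124, 7129, 7275, 7285, 7286, 7292, 7339,
  7347, 7349, 7350, 7354, 7371, 7382, 7398, 7467, 7469, 7470, 7477, 7484, 7507, 7510, 7514, 7516,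
  7544, 7563, 7566, 7573, 7574, 7578, 7580, 7591, 7596, 7602, 7609, 7619, 7622, 7626, 7629, 7636,
  7641, 7723, 7726, 7733, 7738, 7755, 7765, 7769, 7789, 7795, 7821, 7822, 7834, 7836, 7864, 7884,
  7892, 7896, 7950, 7957, 7974, 8010, 8018, 8024, 8069, 8070, 8074, 8083, 8084, 8089]

/-- Closure under removal of elements. -/
def clos (x : ℕ) : ℕ → ℕ
  | 0 => x
  | v + 1 => clos (x ||| ((x >>> 2 ^ v) &&& msk 13 v)) v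

/-- The bitmap of the complex. -/
def big : ℕ := clos (fct.foldr (fun m x => x ||| 2 ^ m) 0) 13

/-- strategy: link of 11 after removal of 12. -/
def tr11 : Tr :=
  .q 10 (.q 6 (.q 8 (.q 1 (.q 0 (.q 2 (.l 3) (.q 3 (.l 4) (.q 5 (.l 4) (.q 9 (.l 4) (.l 4))))) (.q
  5 (.q 3 (.l 2) (.q 4 (.l 2) (.q 7 (.l 2) (.q 9 (.l 2) (.l 2))))) (.q 7 (.q 9 (.l 2) (.q 3 (.q 4
  (.l 2) (.l 2)) (.l 2))) (.q 2 (.q 3 (.q 4 (.l 9) (.l 9)) (.l 4)) (.l 3))))) (.q 7 (.q 5 (.l 0)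
  (.q 9 (.l 0) (.q 0 (.q 2 (.q 4 (.l 3) (.l 3)) (.l 3)) (.l 2)))) (.q 9 (.q 5 (.l 0) (.q 2 (.q 3
  (.q 4 (.l 0) (.l 0)) (.l 0)) (.l 0))) (.q 0 (.q 2 (.q 3 (.q 4 (.l 5) (.l 5)) (.l 4)) (.l 3)) (.l
  2))))) (.q 0 (.q 2 (.q 1 (.q 3 (.l 4) (.q 4 (.l 5) (.q 5 (.l 7) (.q 9 (.l 7) (.l 7))))) (.q 4
  (.q 3 (.l 5) (.q 7 (.l 5) (.l 5))) (.q 7 (.q 5 (.l 3) (.q 9 (.l 3) (.l 3))) (.l 3)))) (.q 3 (.q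
  4 (.q 1 (.l 5) (.q 5 (.q 9 (.l 7) (.l 7)) (.l 7))) (.q 5 (.q 7 (.q 9 (.l 1) (.l 1)) (.l 1)) (.l
  1))) (.q 5 (.q 7 (.q 9 (.l 1) (.l 1)) (.l 1)) (.l 1)))) (.q 5 (.q 9 (.q 7 (.l 1) (.q 3 (.q 4 (.l
  1) (.l 1)) (.l 1))) (.q 1 (.q 3 (.q 4 (.l 2) (.l 2)) (.l 2)) (.l 2))) (.q 1 (.q 3 (.q 4 (.q 2
  (.l 7) (.q 7 (.l 9) (.l 9))) (.l 2)) (.l 2)) (.l 2))))) (.q 0 (.q 1 (.q 2 (.q 3 (.l 4) (.q 4 (.l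
  5) (.q 9 (.q 5 (.l 7) (.q 7 (.l 8) (.l 8))) (.l 5)))) (.q 3 (.q 4 (.l 5) (.q 8 (.q 9 (.l 5) (.l
  5)) (.l 5))) (.q 5 (.q 8 (.q 4 (.l 7) (.q 9 (.l 7) (.l 7))) (.l 4)) (.l 4)))) (.q 2 (.q 3 (.q 4
  (.l 5) (.q 5 (.q 7 (.l 8) (.l 8)) (.l 7))) (.q 7 (.q 9 (.q 4 (.l 5) (.q 5 (.l 8) (.l 8))) (.l
  4)) (.l 4))) (.q 5 (.q 7 (.q 8 (.q 9 (.l 3) (.l 3)) (.l 3)) (.l 3)) (.l 3)))) (.q 2 (.q 3 (.q 4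
  (.q 1 (.l 5) (.q 9 (.q 5 (.l 7) (.q 8 (.l 7) (.l 7))) (.l 5))) (.q 5 (.q 7 (.q 9 (.l 1) (.l 1))
  (.l 1)) (.l 1))) (.q 5 (.q 7 (.q 9 (.q 4 (.l 1) (.q 8 (.l 1) (.l 1))) (.l 1)) (.l 1)) (.l 1)))
  (.q 5 (.q 7 (.q 8 (.q 9 (.l 1) (.l 1)) (.l 1)) (.l 1)) (.l 1))))) (.q 3 (.q 1 (.q 0 (.q 2 (.l 4)
  (.q 4 (.l 5) (.q 8 (.q 9 (.q 5 (.l 6) (.q 7 (.l 6) (.l 6))) (.l 5)) (.l 5)))) (.q 4 (.q 2 (.l 5)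
  (.q 5 (.q 6 (.l 7) (.l 7)) (.l 6))) (.q 5 (.q 6 (.q 8 (.q 2 (.l 7) (.q 9 (.l 7) (.l 7))) (.l 2))
  (.l 2)) (.l 2)))) (.q 4 (.q 2 (.q 0 (.l 5) (.q 5 (.q 9 (.l 6) (.l 6)) (.l 6))) (.q 5 (.q 6 (.q 9
  (.l 0) (.l 0)) (.l 0)) (.l 0))) (.q 5 (.q 6 (.q 8 (.q 9 (.l 0) (.l 0)) (.l 0)) (.l 0)) (.l 0))))
  (.q 4 (.q 2 (.q 0 (.q 1 (.l 5) (.q 6 (.q 7 (.q 5 (.l 8) (.q 8 (.l 9) (.l 9))) (.l 5)) (.l 5)))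
  (.q 5 (.q 7 (.q 9 (.q 1 (.l 6) (.q 6 (.l 8) (.l 8))) (.l 1)) (.l 1)) (.l 1))) (.q 5 (.q 6 (.q 7
  (.q 9 (.l 0) (.l 0)) (.l 0)) (.l 0)) (.l 0))) (.q 5 (.q 6 (.q 7 (.q 8 (.q 9 (.l 0) (.l 0)) (.l
  0)) (.l 0)) (.l 0)) (.l 0))))

/-- strategy: link of 12. -/
def tr12 : Tr :=
  .q 5 (.q 11 (.q 10 (.q 6 (.q 7 (.q 0 (.l 1) (.q 3 (.l 1) (.q 4 (.l 1) (.q 8 (.l 1) (.q 9 (.l 1)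
  (.l 1)))))) (.q 1 (.q 8 (.l 0) (.q 2 (.q 0 (.l 3) (.q 3 (.l 4) (.q 9 (.l 4) (.l 4)))) (.q 3 (.q
  4 (.l 0) (.q 9 (.l 0) (.l 0))) (.l 0)))) (.q 8 (.q 0 (.l 2) (.q 2 (.l 3) (.q 9 (.l 3) (.l 3))))
  (.q 4 (.q 3 (.q 0 (.l 2) (.q 9 (.l 2) (.l 2))) (.q 2 (.q 9 (.l 0) (.l 0)) (.l 0))) (.l 0)))))
  (.q 9 (.q 7 (.q 0 (.l 1) (.q 1 (.l 2) (.q 2 (.l 3) (.q 8 (.l 3) (.l 3))))) (.q 4 (.q 8 (.l 0)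
  (.q 2 (.q 1 (.l 0) (.q 3 (.l 0) (.l 0))) (.q 0 (.q 3 (.l 1) (.l 1)) (.l 1)))) (.q 0 (.q 8 (.l 1)
  (.q 1 (.q 2 (.l 3) (.l 3)) (.l 2))) (.q 3 (.q 8 (.l 1) (.l 1)) (.l 1))))) (.q 1 (.q 3 (.q 2 (.q
  0 (.l 4) (.q 4 (.l 7) (.q 7 (.l 8) (.l 8)))) (.q 4 (.q 0 (.l 7) (.q 8 (.l 7) (.l 7))) (.q 7 (.q
  8 (.l 0) (.l 0)) (.l 0)))) (.q 4 (.q 0 (.q 2 (.l 7) (.q 8 (.l 7) (.l 7))) (.q 2 (.q 8 (.l 7) (.l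
  7)) (.l 7))) (.l 0))) (.q 2 (.q 3 (.q 0 (.q 4 (.l 7) (.q 7 (.l 8) (.l 8))) (.q 4 (.q 7 (.l 8)
  (.l 8)) (.l 7))) (.q 4 (.q 7 (.q 8 (.l 0) (.l 0)) (.l 0)) (.l 0))) (.l 0))))) (.q 0 (.q 3 (.q 1
  (.q 2 (.l 4) (.q 4 (.l 6) (.q 7 (.q 6 (.l 8) (.q 9 (.l 8) (.l 8))) (.q 8 (.q 9 (.l 6) (.l 6))
  (.l 6))))) (.q 4 (.q 2 (.l 6) (.q 6 (.l 7) (.q 9 (.l 7) (.l 7)))) (.q 6 (.q 8 (.q 2 (.l 7) (.q 9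
  (.l 7) (.l 7))) (.q 7 (.q 9 (.l 2) (.l 2)) (.l 2))) (.l 2)))) (.q 4 (.q 2 (.q 1 (.l 6) (.q 6 (.q
  7 (.l 8) (.q 8 (.l 9) (.l 9))) (.q 8 (.q 9 (.l 7) (.l 7)) (.l 7)))) (.q 9 (.q 6 (.q 7 (.l 1) (.q
  8 (.l 1) (.l 1))) (.q 1 (.q 7 (.l 8) (.l 8)) (.l 7))) (.l 1))) (.q 6 (.q 9 (.q 7 (.l 1) (.q 8
  (.l 1) (.l 1))) (.l 1)) (.l 1)))) (.q 6 (.q 3 (.q 9 (.q 4 (.l 1) (.q 8 (.l 1) (.q 1 (.q 2 (.l 7)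
  (.l 7)) (.l 2)))) (.q 1 (.q 4 (.l 2) (.q 2 (.q 8 (.l 7) (.l 7)) (.l 7))) (.q 2 (.q 7 (.q 8 (.l
  4) (.l 4)) (.l 4)) (.l 4)))) (.q 4 (.q 9 (.q 7 (.l 1) (.q 1 (.q 2 (.l 8) (.l 8)) (.l 2))) (.q 1
  (.q 2 (.q 8 (.l 7) (.l 7)) (.l 7)) (.l 2))) (.q 7 (.q 8 (.q 9 (.l 1) (.l 1)) (.l 1)) (.l 1))))
  (.q 1 (.q 2 (.q 3 (.q 4 (.l 7) (.q 7 (.q 9 (.l 8) (.l 8)) (.l 8))) (.q 4 (.q 7 (.q 9 (.l 8) (.l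
  8)) (.l 8)) (.l 7))) (.q 4 (.q 7 (.q 8 (.q 9 (.l 3) (.l 3)) (.l 3)) (.l 3)) (.l 3))) (.q 2 (.q 3
  (.q 4 (.q 9 (.l 7) (.l 7)) (.l 7)) (.l 4)) (.l 3)))))) (.q 6 (.q 7 (.q 3 (.q 0 (.q 1 (.l 2) (.q
  4 (.l 2) (.q 9 (.l 2) (.q 10 (.l 2) (.l 2))))) (.q 8 (.q 9 (.l 1) (.q 10 (.l 1) (.q 1 (.q 2 (.l
  4) (.l 4)) (.l 2)))) (.q 1 (.q 10 (.l 2) (.q 2 (.q 4 (.l 9) (.l 9)) (.l 4))) (.q 10 (.q 2 (.l 4)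
  (.q 9 (.l 4) (.l 4))) (.l 2))))) (.q 8 (.q 9 (.l 0) (.q 10 (.l 0) (.q 0 (.q 2 (.q 4 (.l 1) (.l
  1)) (.l 1)) (.l 1)))) (.q 9 (.q 10 (.l 0) (.q 1 (.q 2 (.q 4 (.l 0) (.l 0)) (.l 0)) (.l 0))) (.q
  0 (.q 1 (.q 2 (.q 4 (.l 10) (.l 10)) (.l 4)) (.l 2)) (.l 1))))) (.q 0 (.q 2 (.q 1 (.q 3 (.l 4)
  (.q 4 (.l 8) (.q 9 (.q 10 (.l 8) (.l 8)) (.l 8)))) (.q 4 (.q 3 (.l 8) (.q 8 (.l 9) (.l 9))) (.q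
  8 (.q 9 (.q 10 (.l 3) (.l 3)) (.l 3)) (.l 3)))) (.q 4 (.q 3 (.q 1 (.l 8) (.q 9 (.l 8) (.q 10 (.l
  8) (.l 8)))) (.q 8 (.q 9 (.l 1) (.q 10 (.l 1) (.l 1))) (.l 1))) (.q 8 (.q 9 (.q 10 (.l 1) (.l
  1)) (.l 1)) (.l 1)))) (.q 10 (.q 9 (.q 8 (.l 1) (.q 1 (.q 2 (.l 3) (.l 3)) (.l 2))) (.q 1 (.q 2
  (.q 3 (.l 4) (.l 4)) (.l 3)) (.l 2))) (.q 1 (.q 2 (.q 3 (.q 4 (.l 8) (.q 8 (.l 9) (.l 9))) (.l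
  4)) (.l 3)) (.l 2))))) (.q 0 (.q 3 (.q 1 (.q 2 (.l 4) (.q 4 (.l 7) (.q 7 (.q 9 (.l 8) (.l 8))
  (.l 8)))) (.q 4 (.q 2 (.l 7) (.q 9 (.q 8 (.l 7) (.q 10 (.l 7) (.l 7))) (.l 7))) (.q 7 (.q 10 (.q
  2 (.l 8) (.q 9 (.l 8) (.l 8))) (.l 2)) (.l 2)))) (.q 4 (.q 1 (.q 2 (.l 7) (.q 8 (.q 10 (.l 7)
  (.l 7)) (.l 7))) (.q 8 (.q 9 (.q 2 (.l 7) (.q 10 (.l 7) (.l 7))) (.l 2)) (.l 2))) (.q 7 (.q 8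
  (.q 9 (.q 10 (.l 1) (.l 1)) (.l 1)) (.l 1)) (.l 1)))) (.q 4 (.q 1 (.q 2 (.q 3 (.l 7) (.q 9 (.q 7
  (.l 8) (.q 10 (.l 8) (.l 8))) (.l 7))) (.q 8 (.q 9 (.q 10 (.l 3) (.l 3)) (.l 3)) (.l 3))) (.q 8
  (.q 9 (.q 10 (.q 2 (.l 3) (.q 7 (.l 3) (.l 3))) (.l 2)) (.l 2)) (.l 2))) (.q 7 (.q 8 (.q 9 (.q
  10 (.l 1) (.l 1)) (.l 1)) (.l 1)) (.l 1)))))) (.q 0 (.q 1 (.q 2 (.q 3 (.l 4) (.q 4 (.l 6) (.q 10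
  (.q 6 (.q 9 (.l 7) (.q 11 (.l 7) (.l 7))) (.q 9 (.q 11 (.l 7) (.l 7)) (.l 7))) (.l 6)))) (.q 3
  (.q 4 (.l 6) (.q 8 (.q 9 (.q 7 (.l 6) (.q 10 (.q 11 (.l 6) (.l 6)) (.l 6))) (.q 6 (.q 10 (.q 11
  (.l 7) (.l 7)) (.l 7)) (.l 7))) (.q 7 (.q 9 (.q 10 (.l 6) (.l 6)) (.l 6)) (.l 6)))) (.q 6 (.q 7
  (.q 9 (.q 10 (.l 4) (.q 4 (.q 11 (.l 8) (.l 8)) (.l 8))) (.q 4 (.q 10 (.q 11 (.l 8) (.l 8)) (.l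
  8)) (.l 8))) (.q 8 (.q 9 (.q 10 (.q 11 (.l 4) (.l 4)) (.l 4)) (.l 4)) (.l 4))) (.l 4)))) (.q 2
  (.q 4 (.q 3 (.l 6) (.q 6 (.q 7 (.q 8 (.l 9) (.q 10 (.q 11 (.l 9) (.l 9)) (.l 9))) (.q 8 (.q 10
  (.l 9) (.l 9)) (.l 9))) (.q 7 (.q 9 (.q 10 (.q 11 (.l 8) (.l 8)) (.l 8)) (.l 8)) (.l 8)))) (.q 9
  (.q 6 (.q 8 (.q 10 (.l 3) (.q 3 (.q 11 (.l 7) (.l 7)) (.l 7))) (.q 7 (.q 10 (.q 11 (.l 3) (.l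
  3)) (.l 3)) (.l 3))) (.q 3 (.q 8 (.q 10 (.q 11 (.l 7) (.l 7)) (.l 7)) (.l 7)) (.l 7))) (.l 3)))
  (.q 6 (.q 9 (.q 10 (.q 7 (.q 8 (.l 3) (.q 11 (.l 3) (.l 3))) (.q 8 (.q 11 (.l 3) (.l 3)) (.l
  3))) (.l 3)) (.l 3)) (.l 3)))) (.q 6 (.q 1 (.q 10 (.q 9 (.q 2 (.l 3) (.q 7 (.l 3) (.q 3 (.q 4
  (.q 11 (.l 8) (.l 8)) (.l 8)) (.l 4)))) (.q 3 (.q 2 (.l 4) (.q 4 (.q 7 (.l 8) (.l 8)) (.l 7)))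
  (.q 4 (.q 7 (.q 8 (.q 11 (.l 2) (.l 2)) (.l 2)) (.l 2)) (.l 2)))) (.q 2 (.q 3 (.q 4 (.l 7) (.q 8
  (.q 9 (.q 11 (.l 7) (.l 7)) (.l 7)) (.l 7))) (.q 4 (.q 7 (.q 9 (.q 11 (.l 8) (.l 8)) (.l 8)) (.l
  8)) (.l 7))) (.q 4 (.q 7 (.q 9 (.q 11 (.l 3) (.l 3)) (.l 3)) (.l 3)) (.l 3)))) (.q 2 (.q 9 (.q 8
  (.q 10 (.l 3) (.q 3 (.q 11 (.l 4) (.l 4)) (.l 4))) (.q 3 (.q 4 (.q 10 (.q 11 (.l 7) (.l 7)) (.l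
  7)) (.l 7)) (.l 4))) (.q 3 (.q 4 (.q 7 (.q 10 (.q 11 (.l 8) (.l 8)) (.l 8)) (.l 8)) (.l 7)) (.l
  4))) (.q 7 (.q 8 (.q 9 (.q 10 (.l 3) (.l 3)) (.l 3)) (.l 3)) (.l 3)))) (.q 2 (.q 3 (.q 4 (.q 1
  (.l 7) (.q 8 (.q 9 (.q 10 (.l 7) (.l 7)) (.l 7)) (.l 7))) (.q 7 (.q 8 (.q 9 (.q 10 (.q 11 (.l 1)
  (.l 1)) (.l 1)) (.l 1)) (.l 1)) (.l 1))) (.q 1 (.q 4 (.q 9 (.q 10 (.l 7) (.l 7)) (.l 7)) (.l 7))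
  (.l 4))) (.q 1 (.q 3 (.q 4 (.q 8 (.q 9 (.q 10 (.q 11 (.l 7) (.l 7)) (.l 7)) (.l 7)) (.l 7)) (.l
  7)) (.l 4)) (.l 3)))))

/-- strategy: the complex itself. -/
def trM : Tr :=
  .q 5 (.q 6 (.q 10 (.q 7 (.q 8 (.l 11) (.q 9 (.l 11) (.q 0 (.q 2 (.q 3 (.l 11) (.q 11 (.l 12) (.q
  1 (.q 4 (.l 12) (.l 12)) (.l 12)))) (.q 3 (.q 12 (.l 11) (.q 1 (.q 4 (.l 11) (.l 11)) (.l 11)))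
  (.q 11 (.q 12 (.l 1) (.l 1)) (.l 12)))) (.q 3 (.q 1 (.q 4 (.l 11) (.q 12 (.l 11) (.l 11))) (.q
  12 (.q 2 (.l 11) (.q 11 (.l 4) (.l 4))) (.l 11))) (.q 4 (.q 11 (.q 12 (.l 1) (.l 1)) (.l 12))
  (.l 11)))))) (.q 1 (.q 8 (.q 9 (.l 11) (.q 0 (.q 4 (.l 11) (.q 11 (.l 12) (.q 2 (.q 3 (.l 12)
  (.l 12)) (.l 12)))) (.q 3 (.q 2 (.l 11) (.q 11 (.l 12) (.l 12))) (.q 11 (.q 4 (.l 12) (.q 12 (.l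
  2) (.l 2))) (.l 12))))) (.q 2 (.q 0 (.q 3 (.l 11) (.q 4 (.l 11) (.q 9 (.l 11) (.q 11 (.l 12) (.l
  12))))) (.q 3 (.q 4 (.l 11) (.q 12 (.l 11) (.l 11))) (.q 9 (.q 12 (.l 11) (.l 11)) (.l 11))))
  (.q 3 (.q 4 (.q 0 (.l 11) (.q 11 (.l 12) (.l 12))) (.q 9 (.q 11 (.q 12 (.l 0) (.l 0)) (.l 12))
  (.l 11))) (.l 11)))) (.q 9 (.q 8 (.l 11) (.q 4 (.q 3 (.q 0 (.l 11) (.q 11 (.l 12) (.l 12))) (.q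
  2 (.q 11 (.q 12 (.l 0) (.l 0)) (.l 12)) (.l 11))) (.l 11))) (.q 0 (.q 4 (.q 3 (.q 2 (.l 11) (.q
  12 (.l 11) (.l 11))) (.q 8 (.q 12 (.l 11) (.l 11)) (.l 11))) (.q 8 (.q 11 (.q 12 (.l 2) (.l 2))
  (.l 12)) (.l 11))) (.q 2 (.q 8 (.q 11 (.q 12 (.l 3) (.l 3)) (.l 12)) (.l 11)) (.l 11)))))) (.q 3
  (.q 1 (.q 0 (.q 2 (.l 11) (.q 4 (.l 11) (.q 7 (.q 12 (.l 11) (.q 8 (.q 9 (.l 11) (.l 11)) (.l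
  11))) (.q 8 (.q 9 (.q 11 (.l 12) (.l 12)) (.l 11)) (.l 11))))) (.q 2 (.q 4 (.l 11) (.q 8 (.l 11)
  (.q 9 (.q 11 (.q 12 (.l 7) (.l 7)) (.l 12)) (.l 11)))) (.q 11 (.q 4 (.l 12) (.q 8 (.q 9 (.l 12)
  (.l 12)) (.l 12))) (.q 7 (.q 8 (.q 9 (.l 12) (.l 12)) (.l 12)) (.l 12))))) (.q 9 (.q 4 (.q 0 (.l
  11) (.q 11 (.l 12) (.q 7 (.q 8 (.l 12) (.l 12)) (.l 12)))) (.q 7 (.q 8 (.l 11) (.q 0 (.q 12 (.l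
  11) (.l 11)) (.l 11))) (.q 8 (.q 11 (.l 12) (.l 12)) (.l 11)))) (.q 0 (.q 2 (.q 4 (.l 11) (.q 8
  (.q 11 (.q 12 (.l 7) (.l 7)) (.l 12)) (.l 11))) (.q 4 (.q 12 (.q 7 (.l 11) (.q 11 (.l 8) (.l
  8))) (.l 11)) (.l 11))) (.q 2 (.q 7 (.q 8 (.q 11 (.q 12 (.l 4) (.l 4)) (.l 12)) (.l 11)) (.l
  11)) (.l 11))))) (.q 4 (.q 2 (.q 0 (.q 1 (.l 11) (.q 7 (.q 8 (.l 11) (.q 11 (.l 12) (.l 12)))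
  (.q 8 (.q 12 (.l 11) (.l 11)) (.l 11)))) (.q 1 (.q 9 (.q 7 (.l 11) (.q 11 (.q 12 (.l 8) (.l 8))
  (.l 12))) (.q 8 (.q 11 (.q 12 (.l 7) (.l 7)) (.l 12)) (.l 11))) (.q 7 (.q 9 (.q 8 (.l 11) (.q 11
  (.l 12) (.l 12))) (.l 11)) (.l 11)))) (.q 9 (.q 7 (.q 8 (.l 11) (.q 11 (.l 12) (.l 12))) (.q 0
  (.q 8 (.q 12 (.l 11) (.l 11)) (.l 11)) (.l 11))) (.l 11))) (.q 9 (.q 7 (.q 8 (.l 11) (.q 0 (.q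
  11 (.q 12 (.l 1) (.l 1)) (.l 12)) (.l 11))) (.q 0 (.q 8 (.q 11 (.q 12 (.l 1) (.l 1)) (.l 12))
  (.l 11)) (.l 11))) (.l 11))))) (.q 4 (.q 2 (.q 1 (.q 0 (.l 11) (.q 3 (.l 11) (.q 9 (.q 7 (.l 11)
  (.q 10 (.q 12 (.l 11) (.l 11)) (.l 11))) (.q 8 (.q 10 (.q 11 (.q 12 (.l 7) (.l 7)) (.l 12)) (.l
  11)) (.l 11))))) (.q 3 (.q 0 (.l 11) (.q 9 (.q 11 (.l 12) (.q 8 (.q 10 (.l 12) (.l 12)) (.l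
  12))) (.q 7 (.q 10 (.q 11 (.q 12 (.l 8) (.l 8)) (.l 12)) (.l 11)) (.l 11)))) (.q 8 (.q 9 (.q 10
  (.q 7 (.l 11) (.q 12 (.l 11) (.l 11))) (.q 0 (.q 12 (.l 11) (.l 11)) (.l 11))) (.q 7 (.q 10 (.q
  11 (.q 12 (.l 0) (.l 0)) (.l 12)) (.l 11)) (.l 11))) (.q 7 (.q 9 (.q 10 (.q 11 (.l 12) (.l 12))
  (.l 11)) (.l 11)) (.l 11))))) (.q 9 (.q 10 (.q 8 (.q 7 (.l 11) (.q 0 (.q 1 (.l 11) (.q 12 (.l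
  11) (.l 11))) (.q 12 (.q 1 (.l 11) (.q 11 (.l 3) (.l 3))) (.l 11)))) (.q 0 (.q 3 (.q 1 (.l 11)
  (.q 12 (.l 11) (.l 11))) (.q 7 (.q 11 (.q 12 (.l 1) (.l 1)) (.l 12)) (.l 11))) (.q 1 (.q 7 (.q
  11 (.q 12 (.l 3) (.l 3)) (.l 12)) (.l 11)) (.l 11)))) (.q 0 (.q 1 (.q 3 (.l 11) (.q 7 (.q 11 (.q
  12 (.l 8) (.l 8)) (.l 12)) (.l 11))) (.q 3 (.q 12 (.q 8 (.l 11) (.q 11 (.l 7) (.l 7))) (.l 11))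
  (.l 11))) (.q 1 (.q 7 (.q 8 (.q 11 (.q 12 (.l 3) (.l 3)) (.l 12)) (.l 11)) (.l 11)) (.l 11))))
  (.q 1 (.q 0 (.q 3 (.l 11) (.q 8 (.q 10 (.l 11) (.l 11)) (.l 11))) (.q 3 (.q 8 (.q 10 (.q 11 (.q
  12 (.l 7) (.l 7)) (.l 12)) (.l 11)) (.l 11)) (.l 11))) (.l 11)))) (.q 10 (.q 7 (.q 9 (.q 8 (.l
  11) (.q 11 (.q 2 (.q 0 (.l 12) (.q 3 (.l 12) (.q 12 (.l 1) (.l 1)))) (.q 12 (.q 0 (.l 1) (.q 1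
  (.l 3) (.l 3))) (.l 0))) (.q 0 (.q 3 (.q 2 (.l 12) (.q 12 (.l 1) (.l 1))) (.l 12)) (.l 12))))
  (.q 3 (.q 2 (.q 0 (.l 11) (.q 1 (.q 11 (.q 12 (.l 8) (.l 8)) (.l 12)) (.l 11))) (.q 1 (.q 8 (.q
  11 (.q 12 (.l 0) (.l 0)) (.l 12)) (.l 11)) (.l 11))) (.l 11))) (.q 0 (.q 1 (.q 2 (.q 3 (.l 11)
  (.q 9 (.q 11 (.l 12) (.l 12)) (.l 11))) (.q 8 (.q 9 (.q 11 (.l 12) (.l 12)) (.l 11)) (.l 11)))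
  (.q 8 (.q 9 (.q 11 (.q 12 (.l 2) (.l 2)) (.l 12)) (.l 11)) (.l 11))) (.q 3 (.q 8 (.q 9 (.q 11
  (.q 12 (.l 1) (.l 1)) (.l 12)) (.l 11)) (.l 11)) (.l 11)))) (.q 1 (.q 3 (.q 0 (.q 2 (.l 11) (.q
  9 (.q 7 (.q 8 (.l 11) (.q 12 (.l 11) (.l 11))) (.q 8 (.q 11 (.l 12) (.l 12)) (.l 11))) (.l 11)))
  (.q 2 (.q 7 (.q 9 (.q 11 (.q 12 (.l 8) (.l 8)) (.l 12)) (.l 11)) (.l 11)) (.l 11))) (.l 11)) (.l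
  11))))) (.q 0 (.q 1 (.q 2 (.q 3 (.l 11) (.q 4 (.l 11) (.q 10 (.q 6 (.q 9 (.l 11) (.q 11 (.q 8
  (.l 12) (.q 12 (.l 7) (.l 7))) (.l 12))) (.q 9 (.q 11 (.q 7 (.l 12) (.q 12 (.l 8) (.l 8))) (.l
  12)) (.l 11))) (.l 11)))) (.q 3 (.q 4 (.l 11) (.q 8 (.q 9 (.q 7 (.l 11) (.q 10 (.q 11 (.l 12)
  (.l 12)) (.l 11))) (.q 6 (.q 10 (.q 11 (.l 12) (.l 12)) (.l 11)) (.l 11))) (.q 7 (.q 9 (.q 10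
  (.q 12 (.l 11) (.l 11)) (.l 11)) (.l 11)) (.l 11)))) (.q 6 (.q 7 (.q 9 (.q 10 (.q 8 (.l 11) (.q
  12 (.l 11) (.l 11))) (.q 4 (.q 11 (.q 12 (.l 8) (.l 8)) (.l 12)) (.l 11))) (.q 4 (.q 10 (.q 11
  (.q 12 (.l 8) (.l 8)) (.l 12)) (.l 11)) (.l 11))) (.q 8 (.q 9 (.q 10 (.q 11 (.l 12) (.l 12)) (.l
  11)) (.l 11)) (.l 11))) (.l 11)))) (.q 2 (.q 4 (.q 3 (.l 11) (.q 6 (.q 7 (.q 8 (.l 11) (.q 10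
  (.q 11 (.l 12) (.l 12)) (.l 11))) (.q 8 (.q 10 (.q 12 (.l 11) (.l 11)) (.l 11)) (.l 11))) (.q 7
  (.q 9 (.q 10 (.q 11 (.l 12) (.l 12)) (.l 11)) (.l 11)) (.l 11)))) (.q 9 (.q 6 (.q 8 (.q 10 (.q 7
  (.l 11) (.q 12 (.l 11) (.l 11))) (.q 3 (.q 11 (.q 12 (.l 7) (.l 7)) (.l 12)) (.l 11))) (.q 7 (.q
  10 (.q 11 (.l 12) (.l 12)) (.l 11)) (.l 11))) (.q 3 (.q 8 (.q 10 (.q 11 (.q 12 (.l 7) (.l 7))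
  (.l 12)) (.l 11)) (.l 11)) (.l 11))) (.l 11))) (.q 6 (.q 9 (.q 10 (.q 7 (.q 8 (.l 11) (.q 11 (.q
  12 (.l 3) (.l 3)) (.l 12))) (.q 8 (.q 11 (.q 12 (.l 3) (.l 3)) (.l 12)) (.l 11))) (.l 11)) (.l
  11)) (.l 11)))) (.q 3 (.q 2 (.q 4 (.q 1 (.l 11) (.q 9 (.q 8 (.q 10 (.l 11) (.q 6 (.q 11 (.q 12
  (.l 7) (.l 7)) (.l 12)) (.l 11))) (.q 6 (.q 10 (.q 11 (.q 12 (.l 7) (.l 7)) (.l 12)) (.l 11))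
  (.l 11))) (.q 6 (.q 7 (.q 10 (.q 11 (.q 12 (.l 8) (.l 8)) (.l 12)) (.l 11)) (.l 11)) (.l 11))))
  (.q 6 (.q 10 (.q 12 (.q 1 (.l 11) (.q 8 (.q 9 (.l 11) (.l 11)) (.l 11))) (.q 7 (.q 8 (.q 9 (.l
  11) (.l 11)) (.l 11)) (.l 11))) (.q 8 (.q 9 (.q 11 (.q 12 (.l 1) (.l 1)) (.l 12)) (.l 11)) (.l
  11))) (.q 7 (.q 8 (.q 9 (.q 10 (.q 11 (.q 12 (.l 1) (.l 1)) (.l 12)) (.l 11)) (.l 11)) (.l 11))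
  (.l 11)))) (.q 1 (.q 4 (.q 6 (.q 7 (.q 10 (.l 11) (.q 9 (.q 11 (.q 12 (.l 8) (.l 8)) (.l 12))
  (.l 11))) (.q 9 (.q 10 (.q 11 (.q 12 (.l 8) (.l 8)) (.l 12)) (.l 11)) (.l 11))) (.q 8 (.q 9 (.q
  10 (.q 11 (.q 12 (.l 7) (.l 7)) (.l 12)) (.l 11)) (.l 11)) (.l 11))) (.q 6 (.q 7 (.q 9 (.q 10
  (.q 8 (.l 11) (.q 12 (.l 11) (.l 11))) (.l 11)) (.l 11)) (.l 11)) (.l 11))) (.q 6 (.q 7 (.q 8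
  (.q 9 (.q 10 (.l 11) (.l 11)) (.l 11)) (.l 11)) (.l 11)) (.l 11)))) (.q 6 (.q 7 (.q 9 (.q 10 (.q
  8 (.l 11) (.q 1 (.q 12 (.l 11) (.l 11)) (.l 11))) (.q 1 (.q 4 (.q 11 (.q 12 (.l 2) (.l 2)) (.l
  12)) (.l 11)) (.l 11))) (.q 1 (.q 4 (.q 8 (.q 10 (.q 11 (.q 12 (.l 2) (.l 2)) (.l 12)) (.l 11))
  (.l 11)) (.l 11)) (.l 11))) (.q 2 (.q 9 (.q 10 (.q 12 (.q 1 (.l 11) (.q 8 (.l 11) (.l 11))) (.l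
  11)) (.l 11)) (.l 11)) (.l 11))) (.q 1 (.q 2 (.q 4 (.q 9 (.q 10 (.q 12 (.l 11) (.l 11)) (.l 11))
  (.l 11)) (.l 11)) (.l 11)) (.l 11)))))

end Pool.Agent.H702.EY
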