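import Pool.Agent.H702.EY.Mf
import Pool.Agent.H702.EY.Red

set_option autoImplicit false

/-! # Gluing 15 copies of the complex on 13 vertices along its 11 old vertices
(helper702, after helper73)

The copies are indexed by the group elements `g`, copies `g` with the same `co g` are equal. -/

namespace Pool.Agent.H702.EY

open Set

section generic

variable {V I : Type} (typ : V → I) (S : Set V → Prop)

/-- In a dead state every unqueried vertex is irrelevant. -/
theorem dead_leaf (T N : Set V) (r u : V) (hrT : r ∉ T) (hrN : r ∉ N) (hu : u ∈ N)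
    (hur : typ u = typ r) (hd : ∀ X : Set V, T ⊆ X → Disjoint X N → ¬ S X) : W1 typ S T N := by
  refine W1.leaf T N r hrT hrN u hu hur (fun X hTX hXN => ?_)
  have h1 : ¬ S (insert r X) := by
    refine hd _ (hTX.trans (subset_insert _ _)) ?_
    rw [Set.disjoint_left]
    rintro x (hx | hx)
    · rw [hx]; exact hrN
    · exact Set.disjoint_left.1 hXN hx
  have h2 : ¬ S (X \ {r}) := by
    refine hd _ (fun x hx => ⟨hTX hx, fun h => hrT (h ▸ hx)⟩) ?_
    exact Set.disjoint_of_subset_left sdiff_subset hXN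
  exact ⟨fun h => absurd h h1, fun h => absurd h h2⟩

/-- A leaf `w` whose type has not been hit yet: query the other vertices of its type; if all are
present the state is dead and another unqueried vertex `r` is irrelevant. -/
theorem fiber_leaf [Finite V] (hdown : ∀ A B : Set V, A ⊆ B → S B → S A) (w r u0 : V)
    (hrw : typ r ≠ typ w) (hfib : ¬ S {v | typ v = typ w}) (hu0 : typ u0 = typ r) :
    ∀ (n : ℕ) (T N : Set V), ({v | typ v = typ w ∧ v ≠ w} \ (T ∪ N)).ncard = n →
    w ∉ T → w ∉ N → r ∉ T → r ∉ N → u0 ∈ N →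
    (∀ X : Set V, T ⊆ X → Disjoint X N → (S (insert w X) ↔ S (X \ {w}))) → W1 typ S T N := by
  intro n
  induction n with
  | zero =>
    intro T N hn hwT hwN hrT hrN hu hirr
    by_cases h : ∃ u ∈ N, typ u = typ w
    · obtain ⟨u, hu1, hu2⟩ := h
      exact W1.leaf T N w hwT hwN u hu1 hu2 hirr
    push Not at h
    rw [Set.ncard_eq_zero (Set.toFinite _)] at hn
    have hsub : {v | typ v = typ w} ⊆ insert w T := by
      intro v hv
      by_cases hvw : v = w
      · exact Or.inl hvw
      · right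
        by_contra hvT
        have : v ∈ ({v | typ v = typ w ∧ v ≠ w} \ (T ∪ N)) :=
          ⟨⟨hv, hvw⟩, fun h2 => h2.elim hvT (fun h3 => h v h3 hv)⟩
        rw [hn] at this
        exact this
    refine dead_leaf typ S T N r u0 hrT hrN hu hu0 (fun X hTX hXN hSX => ?_)
    by_cases hwX : w ∈ X
    · exact hfib (hdown _ _ (hsub.trans (Set.insert_subset hwX hTX)) hSX)
    · have := hirr X hTX hXN
      rw [Set.sdiff_singleton_eq_self hwX] at this
      exact hfib (hdown _ _ (hsub.trans (Set.insert_subset_insert hTX)) (this.2 hSX))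
  | succ n ih =>
    intro T N hn hwT hwN hrT hrN hu hirr
    have hne : ({v | typ v = typ w ∧ v ≠ w} \ (T ∪ N)).Nonempty := by
      rw [← Set.ncard_pos (Set.toFinite _)]; omega
    obtain ⟨v, ⟨hvt, hvw⟩, hvTN⟩ := hne
    have hvT : v ∉ T := fun h => hvTN (Or.inl h)
    have hvN : v ∉ N := fun h => hvTN (Or.inr h)
    refine W1.query T N v hvT hvN ?_ ?_
    · apply ih
      · have e : {v | typ v = typ w ∧ v ≠ w} \ (insert v T ∪ N) =
            ({v | typ v = typ w ∧ v ≠ w} \ (T ∪ N)) \ {v} := by
          ext y; simp only [mem_sdiff, mem_union, mem_insert_iff, mem_singleton_iff]; tauto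
        rw [e, Set.ncard_sdiff_singleton_of_mem
          (show v ∈ {v | typ v = typ w ∧ v ≠ w} \ (T ∪ N) from ⟨⟨hvt, hvw⟩, hvTN⟩), hn]
        rfl
      · rintro (h | h)
        · exact hvw h.symm
        · exact hwT h
      · exact hwN
      · rintro (h | h)
        · exact hrw (h ▸ hvt)
        · exact hrT h
      · exact hrN
      · exact hu
      · intro X hTX hXN
        exact hirr X ((subset_insert _ _).trans hTX) hXN
    · refine W1.leaf T _ w hwT ?_ v (Or.inl rfl) hvt (fun X hTX hXN => ?_)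
      · rintro (h | h)
        · exact hvw h.symm
        · exact hwN h
      · exact hirr X hTX (Set.disjoint_of_subset_right (subset_insert _ _) hXN)

end generic

/-- The vertices: 11 old vertices and 30 new ones. -/
abbrev VV : Type := Fin 11 ⊕ Fin 30

/-- The embedding of the copy `g`. -/
def emb (g : Fin 60) (i : Fin 13) : VV :=
  if h : i.val < 11 then Sum.inl (pm g ⟨i.val, h⟩) else if i.val = 11 then Sum.inr (v1 g)
  else Sum.inr (v2 g)

theorem emb_old (g : Fin 60) (i : Fin 13) (h : i.val < 11) :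
    emb g i = Sum.inl (pm g ⟨i.val, h⟩) := dif_pos h

theorem emb_11 (g : Fin 60) : emb g 11 = Sum.inr (v1 g) := rfl

theorem emb_12 (g : Fin 60) : emb g 12 = Sum.inr (v2 g) := rfl

theorem three : ∀ i : Fin 13, i.val < 11 ∨ i = 11 ∨ i = 12 := by decide

theorem emb_inj (g : Fin 60) : Function.Injective (emb g) := by
  intro i j h
  rcases three i with hi | hi | hi <;> rcases three j with hj | hj | hj
  · rw [emb_old g i hi, emb_old g j hj] at h
    have h2 := congrArg Fin.val (pm_inj g (Sum.inl_injective h))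
    exact Fin.ext h2
  · rw [emb_old g i hi, hj, emb_11] at h
    exact absurd h (by simp)
  · rw [emb_old g i hi, hj, emb_12] at h
    exact absurd h (by simp)
  · rw [emb_old g j hj, hi, emb_11] at h
    exact absurd h (by simp)
  · rw [hi, hj]
  · rw [hi, hj, emb_11, emb_12] at h
    exact absurd (Sum.inr_injective h) (v12 g).1
  · rw [emb_old g j hj, hi, emb_12] at h
    exact absurd h (by simp)
  · rw [hi, hj, emb_11, emb_12] at h
    exact absurd (Sum.inr_injective h).symm (v12 g).1
  · rw [hi, hj]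

theorem emb_inr {g : Fin 60} {i : Fin 30} {w : Fin 13} (h : emb g w = Sum.inr i) :
    (w = 11 ∧ i = v1 g) ∨ (w = 12 ∧ i = v2 g) := by
  rcases three w with hw | hw | hw
  · rw [emb_old g w hw] at h
    exact absurd h (by simp)
  · rw [hw, emb_11] at h
    exact Or.inl ⟨hw, (Sum.inr_injective h).symm⟩
  · rw [hw, emb_12] at h
    exact Or.inr ⟨hw, (Sum.inr_injective h).symm⟩

theorem emb_inr' {g : Fin 60} {i : Fin 30} {w : Fin 13} (h : emb g w = Sum.inr i) :
    bl i = co g := by
  rcases emb_inr h with h1 | h1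
  · rw [h1.2]; exact (v12 g).2.1
  · rw [h1.2]; exact (v12 g).2.2

set_option maxRecDepth 100000 in
theorem emb_mh : ∀ k : Fin 4, ∀ g : Fin 60, ∀ i : Fin 13, emb (mh k g) i = emb g (hp k i) := by
  decide +kernel

theorem MM_co (g g' : Fin 60) (h : co g = co g') (X : Set VV) :
    MM (emb g ⁻¹' X) ↔ MM (emb g' ⁻¹' X) := by
  obtain ⟨k, hk⟩ := co_mh g g' h
  have e : emb g' ⁻¹' X = hp k ⁻¹' (emb g ⁻¹' X) := by
    ext i
    simp only [mem_preimage, hk, emb_mh]
  rw [e]
  exact (MM_hp k _).symm

/-- The glued complex. -/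
def SS (X : Set VV) : Prop := ∃ g, (∀ i, Sum.inr i ∈ X → bl i = co g) ∧ MM (emb g ⁻¹' X)

/-- Types. -/
def tV : VV → ℕ
  | Sum.inl x => t0 x
  | Sum.inr _ => 2

theorem SS_down (A B : Set VV) (hAB : A ⊆ B) (h : SS B) : SS A := by
  obtain ⟨g, h1, h2⟩ := h
  exact ⟨g, fun i hij => h1 i (hAB hij), MM_down _ _ (Set.preimage_mono hAB) h2⟩

theorem SS_empty : SS ∅ := ⟨0, fun _ h => absurd h (Set.notMem_empty _), by
  rw [Set.preimage_empty]; exact MM_empty⟩

theorem SS_two {i j : Fin 30} (h : bl i ≠ bl j) (X : Set VV)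
    (h1 : Sum.inr i ∈ X) (h2 : Sum.inr j ∈ X) : ¬ SS X := by
  rintro ⟨g0, h0, _⟩
  exact h ((h0 _ h1).trans (h0 _ h2).symm)

theorem pre_old (g : Fin 60) (X : Set VV) (h1 : ∀ i, bl i = co g → Sum.inr i ∉ X) :
    emb g ⁻¹' X = old (pm g ⁻¹' (Sum.inl ⁻¹' X)) := by
  ext i
  constructor
  · intro hi
    have hi' : emb g i ∈ X := hi
    rcases three i with h | h | h
    · rw [emb_old g i h] at hi'
      exact ⟨h, hi'⟩
    · rw [h, emb_11] at hi'
      exact absurd hi' (h1 _ (v12 g).2.1)
    · rw [h, emb_12] at hi'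
      exact absurd hi' (h1 _ (v12 g).2.2)
  · rintro ⟨h1, h2⟩
    show emb g i ∈ X
    rw [emb_old g i h1]
    exact h2

theorem t0_lt (x : Fin 11) : t0 x < 2 := by unfold t0; split_ifs <;> norm_num

theorem SS_fib (x : Fin 11) : ¬ SS {v | tV v = tV (Sum.inl x)} := by
  have hn : ∀ i : Fin 30, Sum.inr i ∉ {v : VV | tV v = tV (Sum.inl x)} := by
    intro i hj
    have h1 : 2 = t0 x := hj
    have := t0_lt x
    omega
  rintro ⟨g, _, h⟩
  rw [pre_old g _ (fun i _ => hn i), MM_pm g] at h
  exact MM_fib x h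

theorem SS_iff {g : Fin 60} {i0 : Fin 30} (hi0 : bl i0 = co g) {Y : Set VV}
    (h : Sum.inr i0 ∈ Y) :
    SS Y ↔ (∀ i, Sum.inr i ∈ Y → bl i = co g) ∧ MM (emb g ⁻¹' Y) := by
  constructor
  · rintro ⟨g0, h1, h2⟩
    have h3 : co g0 = co g := (h1 i0 h).symm.trans hi0
    refine ⟨fun i hi => (h1 i hi).trans h3, ?_⟩
    rw [← MM_co g0 g h3]
    exact h2
  · exact fun h => ⟨g, h⟩

theorem SS_iff0 {Y : Set VV} (h : ∀ i, bl i ≠ co 0 → Sum.inr i ∉ Y) :
    SS Y ↔ MM (emb 0 ⁻¹' Y) := by
  constructor
  · rintro ⟨g, h1, h2⟩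
    by_cases hg : co g = co 0
    · rw [← MM_co g 0 hg]; exact h2
    · have h3 : ∀ i, Sum.inr i ∉ Y := by
        intro i hij
        exact h i (by rw [h1 i hij]; exact hg) hij
      rw [pre_old g Y (fun i _ => h3 i), MM_pm g] at h2
      rw [pre_old 0 Y (fun i _ => h3 i), MM_pm 0]
      exact h2
  · intro h1
    refine ⟨0, fun i hij => ?_, h1⟩
    by_contra hi
    exact h i hi hij

theorem pre_insert (g : Fin 60) (w : Fin 13) (X : Set VV) :
    emb g ⁻¹' (insert (emb g w) X) = insert w (emb g ⁻¹' X) := by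
  ext i
  simp only [mem_preimage, mem_insert_iff]
  constructor
  · rintro (h | h)
    · exact Or.inl (emb_inj g h)
    · exact Or.inr h
  · rintro (h | h)
    · exact Or.inl (by rw [h])
    · exact Or.inr h

theorem pre_diff (g : Fin 60) (w : Fin 13) (X : Set VV) :
    emb g ⁻¹' (X \ {emb g w}) = (emb g ⁻¹' X) \ {w} := by
  ext i
  simp only [mem_preimage, mem_sdiff, mem_singleton_iff]
  constructor
  · rintro ⟨h1, h2⟩
    exact ⟨h1, fun h => h2 (by rw [h])⟩
  · rintro ⟨h1, h2⟩
    exact ⟨h1, fun h => h2 (emb_inj g h)⟩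

/-- Playing the strategy of a link in the copy `g`. -/
theorem play_link (g : Fin 60) (hg : co 0 ≠ co g) {T0 N0 : Set (Fin 13)}
    (h : WM (fun _ _ _ => True) MM T0 N0) : ∀ T N : Set VV, emb g ⁻¹' T = T0 →
    emb g ⁻¹' N = N0 → (∃ i, bl i = co g ∧ Sum.inr i ∈ T) → Sum.inr (v1 0) ∉ T →
    Sum.inr (v1 0) ∉ N → (∃ u : Fin 30, Sum.inr u ∈ N) → W1 tV SS T N := by
  have hr0 : ∀ v : Fin 13, Sum.inr (v1 0) ≠ emb g v := by
    intro v e
    apply hg
    rw [← emb_inr' e.symm]
    exact (v12 0).2.1.symm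
  induction h with
  | leaf T0 N0 w hT hN _ h =>
    intro T N hT0 hN0 hj hrT hrN hhit
    obtain ⟨i0, hi0, hj⟩ := hj
    obtain ⟨u, hu⟩ := hhit
    have hwT : emb g w ∉ T := fun h => hT (by rw [← hT0]; exact h)
    have hwN : emb g w ∉ N := fun h => hN (by rw [← hN0]; exact h)
    have hne : Sum.inr i0 ≠ emb g w := fun e => hwT (e ▸ hj)
    have irr : ∀ X : Set VV, T ⊆ X → Disjoint X N →
        (SS (insert (emb g w) X) ↔ SS (X \ {emb g w})) := by
      intro X hTX hXN
      rw [SS_iff hi0 (show Sum.inr i0 ∈ insert (emb g w) X from Or.inr (hTX hj)),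
        SS_iff hi0 (show Sum.inr i0 ∈ X \ {emb g w} from ⟨hTX hj, hne⟩),
        pre_insert, pre_diff]
      have h1 := h (emb g ⁻¹' X) (by rw [← hT0]; exact Set.preimage_mono hTX) (by
        rw [← hN0]; exact Disjoint.preimage _ hXN)
      rw [h1]
      refine and_congr_left fun _ => ?_
      constructor
      · intro h2 i hij
        exact h2 i (Or.inr hij.1)
      · rintro h2 i (hij | hij)
        · exact emb_inr' hij.symm
        · by_cases he : Sum.inr i = emb g w
          · exact emb_inr' he.symm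
          · exact h2 i ⟨hij, he⟩
    by_cases hw : w.val < 11
    · have hwe := emb_old g w hw
      refine fiber_leaf tV SS SS_down (emb g w) (Sum.inr (v1 0)) (Sum.inr u) ?_ ?_ rfl
        _ T N rfl hwT hwN hrT hrN hu irr
      · rw [hwe]
        show 2 ≠ t0 _
        have := t0_lt (pm g ⟨w.val, hw⟩)
        omega
      · rw [hwe]
        exact SS_fib _
    · refine W1.leaf T N (emb g w) hwT hwN _ hu ?_ irr
      rcases three w with h1 | h1 | h1
      · exact absurd h1 hw
      · rw [h1]; rfl
      · rw [h1]; rfl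
  | query T0 N0 v hT hN _ _ ih1 ih2 =>
    intro T N hT0 hN0 hj hrT hrN hhit
    have hvT : emb g v ∉ T := fun h => hT (by rw [← hT0]; exact h)
    have hvN : emb g v ∉ N := fun h => hN (by rw [← hN0]; exact h)
    refine W1.query T N (emb g v) hvT hvN ?_ ?_
    · refine ih1 _ _ (by rw [pre_insert, hT0]) hN0 ?_ ?_ hrN hhit
      · obtain ⟨i0, hi0, hj⟩ := hj
        exact ⟨i0, hi0, Or.inr hj⟩
      · rintro (h | h)
        · exact hr0 v h
        · exact hrT h
    · refine ih2 _ _ hT0 (by rw [pre_insert, hN0]) hj hrT ?_ ?_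
      · rintro (h | h)
        · exact hr0 v h
        · exact hrN h
      · obtain ⟨u, hu⟩ := hhit
        exact ⟨u, Or.inr hu⟩

theorem pts : bl 1 ≠ co 0 ∧ bl 2 ≠ co 0 ∧ bl 1 ≠ bl 2 ∧ (3 : Fin 30) ≠ 1 ∧
    (3 : Fin 30) ≠ 2 := by decide +kernel

/-- Playing the strategy of the complex in the copy `0` when the other copies are absent. -/
theorem play_final {T0 N0 : Set (Fin 13)} (h : WM Qf MM T0 N0) : ∀ T N : Set VV,
    emb 0 ⁻¹' T = T0 → emb 0 ⁻¹' N = N0 → (∀ i, bl i ≠ co 0 → Sum.inr i ∈ N) →
    W1 tV SS T N := by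
  induction h with
  | leaf T0 N0 w hT hN hQ h =>
    intro T N hT0 hN0 hall
    have hwT : emb 0 w ∉ T := fun h => hT (by rw [← hT0]; exact h)
    have hwN : emb 0 w ∉ N := fun h => hN (by rw [← hN0]; exact h)
    have hu := hall 1 pts.1
    have irr : ∀ X : Set VV, T ⊆ X → Disjoint X N →
        (SS (insert (emb 0 w) X) ↔ SS (X \ {emb 0 w})) := by
      intro X hTX hXN
      have hX : ∀ i, bl i ≠ co 0 → Sum.inr i ∉ X := fun i hi hX =>
        Set.disjoint_left.1 hXN hX (hall i hi)
      rw [SS_iff0 (Y := insert (emb 0 w) X) (by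
          rintro i hi (hij | hij)
          · exact hi (emb_inr' hij.symm)
          · exact hX i hi hij),
        SS_iff0 (Y := X \ {emb 0 w}) (fun i hi hij => hX i hi hij.1), pre_insert,
        pre_diff]
      exact h (emb 0 ⁻¹' X) (by rw [← hT0]; exact Set.preimage_mono hTX) (by
        rw [← hN0]; exact Disjoint.preimage _ hXN)
    by_cases hw : w.val < 11
    · have hwe := emb_old 0 w hw
      rw [pm_zero] at hwe
      rcases hQ with h1 | ⟨v, hv, hv11, hvt⟩ | ⟨z, hz, hzT, hzN⟩
      · omega
      · refine W1.leaf T N (emb 0 w) hwT hwN (emb 0 v) (by rw [← hN0] at hv; exact hv) ?_ irr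
        rw [hwe, emb_old 0 v hv11, pm_zero]
        exact hvt
      · have hze : ∃ y : Fin 30, emb 0 z = Sum.inr y := by
          rcases three z with h1 | h1 | h1
          · omega
          · exact ⟨_, by rw [h1, emb_11]⟩
          · exact ⟨_, by rw [h1, emb_12]⟩
        obtain ⟨y, hy⟩ := hze
        refine fiber_leaf tV SS SS_down (emb 0 w) (emb 0 z) (Sum.inr 1) ?_ ?_ ?_
          _ T N rfl hwT hwN (fun h => hzT (by rw [← hT0]; exact h))
          (fun h => hzN (by rw [← hN0]; exact h)) hu irr
        · rw [hwe, hy]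
          show 2 ≠ t0 _
          have := t0_lt ⟨w.val, hw⟩
          omega
        · rw [hwe]
          exact SS_fib _
        · rw [hy]; rfl
    · refine W1.leaf T N (emb 0 w) hwT hwN (Sum.inr 1) hu ?_ irr
      rcases three w with h1 | h1 | h1
      · exact absurd h1 hw
      · rw [h1]; rfl
      · rw [h1]; rfl
  | query T0 N0 v hT hN _ _ ih1 ih2 =>
    intro T N hT0 hN0 hall
    have hvT : emb 0 v ∉ T := fun h => hT (by rw [← hT0]; exact h)
    have hvN : emb 0 v ∉ N := fun h => hN (by rw [← hN0]; exact h)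
    refine W1.query T N (emb 0 v) hvT hvN ?_ ?_
    · exact ih1 _ _ (by rw [pre_insert, hT0]) hN0 hall
    · exact ih2 _ _ hT0 (by rw [pre_insert, hN0]) (fun i hi => Or.inr (hall i hi))

/-- The branch in which a new vertex of another copy is present. -/
theorem branch (i : Fin 30) (hi : bl i ≠ co 0) (D : Set (Fin 30)) (hiD : i ∉ D)
    (h0 : v1 0 ∉ D) (u : Fin 30) (hu : u ∈ D) :
    W1 tV SS {Sum.inr i} (Sum.inr '' D) := by
  have hmem : ∀ x : Fin 30, (Sum.inr x : VV) ∈ (Sum.inr '' D : Set VV) ↔ x ∈ D := by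
    intro x
    constructor
    · rintro ⟨y, hy, e⟩
      exact Sum.inr_injective e ▸ hy
    · exact fun hx => ⟨x, hx, rfl⟩
  have hold : ∀ g : Fin 60, ∀ v : Fin 13, v.val < 11 → emb g v ∉ (Sum.inr '' D : Set VV) := by
    rintro g v hv ⟨y, _, e⟩
    rw [emb_old g v hv] at e
    exact absurd e (by simp)
  have h00 : (Sum.inr (v1 0) : VV) ∉ ({Sum.inr i} : Set VV) := by
    intro h
    apply hi
    rw [← Sum.inr_injective h]
    exact (v12 0).2.1
  have h01 : (Sum.inr (v1 0) : VV) ∉ (Sum.inr '' D : Set VV) := fun h => h0 ((hmem _).1 h)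
  obtain ⟨ha, hb⟩ := ga_spec i
  by_cases hm : v2 (ga i) ∈ D
  · have hc : bl i = co (ga i) := by
      conv_lhs => rw [← ha]
      exact (v12 _).2.1
    refine play_link (ga i) (fun h => hi (hc.trans h.symm)) wm_z0 _ _ ?_ ?_ ⟨i, hc, rfl⟩ h00 h01
      ⟨u, (hmem u).2 hu⟩
    · ext v
      simp only [mem_preimage, mem_singleton_iff]
      constructor
      · intro h
        rcases emb_inr h with h1 | h1
        · exact h1.1
        · have h2 := h1.2
          conv_lhs at h2 => rw [← ha]
          exact absurd h2 (v12 _).1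
      · intro h
        rw [h, emb_11, ha]
    · ext v
      simp only [mem_preimage, mem_singleton_iff]
      rcases three v with hv | hv | hv
      · constructor
        · intro h
          exact absurd h (hold _ v hv)
        · intro h
          rw [h] at hv
          exact absurd hv (by decide)
      · rw [hv, emb_11, hmem, ha]
        constructor
        · exact fun h => absurd h hiD
        · intro h
          exact absurd h (by decide)
      · rw [hv, emb_12, hmem]
        exact ⟨fun _ => rfl, fun _ => hm⟩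
  · have hc : bl i = co (gb i) := by
      conv_lhs => rw [← hb]
      exact (v12 _).2.2
    have hm' : v1 (gb i) ∉ D := by
      have hca : bl i = co (ga i) := by
        conv_lhs => rw [← ha]
        exact (v12 _).2.1
      rcases bl_co (ga i) (v1 (gb i)) ((v12 _).2.1.trans (hc.symm.trans hca)) with h | h
      · exfalso
        rw [ha] at h
        apply (v12 (gb i)).1
        rw [h, hb]
      · rw [h]; exact hm
    refine play_link (gb i) (fun h => hi (hc.trans h.symm)) wm_z1 _ _ ?_ ?_ ⟨i, hc, rfl⟩ h00 h01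
      ⟨u, (hmem u).2 hu⟩
    · ext v
      simp only [mem_preimage, mem_singleton_iff]
      constructor
      · intro h
        rcases emb_inr h with h1 | h1
        · have h2 := h1.2
          conv_lhs at h2 => rw [← hb]
          exact absurd h2.symm (v12 _).1
        · exact h1.1
      · intro h
        rw [h, emb_12, hb]
    · ext v
      simp only [mem_preimage, mem_empty_iff_false, iff_false]
      rcases three v with hv | hv | hv
      · exact hold _ v hv
      · rw [hv, emb_11, hmem]
        exact hm'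
      · rw [hv, emb_12, hb, hmem]
        exact hiD

theorem stage (u : Fin 30) : ∀ (n : ℕ) (D : Set (Fin 30)),
    ({p | bl p ≠ co 0} \ D).ncard = n → (∀ p ∈ D, bl p ≠ co 0) → u ∈ D →
    W1 tV SS ∅ (Sum.inr '' D) := by
  intro n
  induction n with
  | zero =>
    intro D hn hD _
    rw [Set.ncard_eq_zero (Set.toFinite _)] at hn
    refine play_final wm_M _ _ (Set.preimage_empty) ?_ ?_
    · rw [Set.eq_empty_iff_forall_notMem]
      rintro i ⟨g, hp, he⟩
      exact hD _ hp (emb_inr' he.symm)
    · intro g hg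
      refine ⟨g, ?_, rfl⟩
      by_contra hc
      have : g ∈ ({p | bl p ≠ co 0} \ D : Set (Fin 30)) := ⟨hg, hc⟩
      rw [hn] at this
      exact this
  | succ n ih =>
    intro D hn hD h1
    have hne : ({p | bl p ≠ co 0} \ D).Nonempty := by
      rw [← Set.ncard_pos (Set.toFinite _)]; omega
    obtain ⟨g, hg, hgD⟩ := hne
    have hgD' : Sum.inr g ∉ (Sum.inr '' D : Set VV) := by
      rintro ⟨p, hp, he⟩
      exact hgD (Sum.inr_injective he ▸ hp)
    refine W1.query _ _ (Sum.inr g) (Set.notMem_empty _) hgD' ?_ ?_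
    · have e : (insert (Sum.inr g) ∅ : Set VV) = {Sum.inr g} := by simp
      rw [e]
      exact branch g hg D hgD (fun h => hD _ h (v12 0).2.1) u h1
    · have e : insert (Sum.inr g) (Sum.inr '' D : Set VV) = Sum.inr '' (insert g D) := by
        rw [Set.image_insert_eq]
      rw [e]
      apply ih
      · have e : {p | bl p ≠ co 0} \ (insert g D) =
            ({p : Fin 30 | bl p ≠ co 0} \ D) \ {g} := by
          ext y; simp only [mem_sdiff, mem_insert_iff, mem_singleton_iff]; tauto
        rw [e, Set.ncard_sdiff_singleton_of_mem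
          (show g ∈ {p : Fin 30 | bl p ≠ co 0} \ D from ⟨hg, hgD⟩), hn]
        rfl
      · rintro p (hp | hp)
        · rw [hp]; exact hg
        · exact hD p hp
      · exact Or.inr h1

theorem w1_a : W1 tV SS ∅ {Sum.inr 1} := by
  have := stage 1 _ {1} rfl (fun p hp => by
    rw [Set.mem_singleton_iff] at hp; rw [hp]; exact pts.1) rfl
  rwa [Set.image_singleton] at this

theorem w1_ab : W1 tV SS {Sum.inr 1} {Sum.inr 2} := by
  have := branch 1 pts.1 {2} (by
    rw [Set.mem_singleton_iff]; intro h; exact pts.2.2.1 (by rw [h])) (by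
    rw [Set.mem_singleton_iff]; intro h; exact pts.2.1 (by rw [← h]; exact (v12 0).2.1)) 2 rfl
  rwa [Set.image_singleton] at this

end Pool.Agent.H702.EY
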