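import Mathlib

set_option autoImplicit false

/-! # The group of order 60 acting on the 11 old vertices, by tables (helper702, after helper73) -/

namespace Pool.Agent.H702.EY

/-- A 3-cycle of the five points with its action on the six pentagons. -/
def g3 : Equiv.Perm (Fin 11) where
  toFun := ![1, 2, 0, 3, 4, 7, 10, 8, 5, 6, 9]
  invFun := ![2, 0, 1, 3, 4, 8, 9, 5, 7, 10, 6]
  left_inv := by decide
  right_inv := by decide

/-- A 5-cycle of the five points with its action on the six pentagons. -/
def g5 : Equiv.Perm (Fin 11) where
  toFun := ![1, 2, 3, 4, 0, 10, 8, 7, 9, 5, 6]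
  invFun := ![4, 0, 1, 2, 3, 9, 10, 7, 6, 8, 5]
  left_inv := by decide
  right_inv := by decide

/-- The generators. -/
def gen (c : Fin 2) : Equiv.Perm (Fin 11) := if c = 0 then g3 else g5

/-- A digit. -/
def dg (T w i : ℕ) : ℕ := (T >>> (w * i)) % 2 ^ w

/-- table of the 60 permutations of `Fin 11`. -/
def pmT : ℕ :=
  215551891780373024660165756141972173864751409795801161216578217303373651502109086745145862634950588177594394206451518836084382392176909709895948654852950961563419817360165236300959859718669824937025480190847941608882817856792080827074675679074180034793864798983501650424826613259088673137350378747454747169233733192553403618755696381003694206952643307232958049456418023125427882426010863296658300730800270118110131144306259493494667208912025072227266517604894866851289312744697275240801151884493102963113204727742769073363214831978007106629848890896078901624883890236931000978103526699162364035804936711911838477014874197812277275827038570914338664677300318132345859381859313192771327293978714608695639479960377139243277133347357839895037829445302577425470215059915417382082378890055921503056400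

/-- tables of the left multiplications by the two generators. -/
def piT : ℕ :=
  4586941654821071122417923938926108902219962545030692211503864696792309371463700578017664405842792252876714752424641739504443699887148111597069295758589500093403057770500604565651593902610566894274205718592024247029953

/-- tables of the inverses of the left multiplications. -/
def pvT : ℕ :=
  4551337760093738798404979641473352803960439231320583131929662179823960690581025930429575492361202134760379403576873691752285100982367264437317563319846933304289245454154510287875281135008953787724378495327343399444483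

/-- table of parents in a spanning tree. -/
def paT : ℕ :=
  2238302906716150447407835262273652763085930388083492916688040315790053826114141829510391687239570643398880956793679489057964032

/-- The permutations. -/
def pm (g : Fin 60) (x : Fin 11) : Fin 11 :=
  ⟨dg pmT 4 (11 * g.val + x.val) % 11, Nat.mod_lt _ (by norm_num)⟩

/-- multiplication by a generator. -/
def piF (c : Fin 2) (g : Fin 60) : Fin 60 :=
  ⟨dg piT 6 (60 * c.val + g.val) % 60, Nat.mod_lt _ (by norm_num)⟩

/-- division by a generator. -/
def pvF (c : Fin 2) (g : Fin 60) : Fin 60 :=
  ⟨dg pvT 6 (60 * c.val + g.val) % 60, Nat.mod_lt _ (by norm_num)⟩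

/-- the parent. -/
def paF (g : Fin 60) : Fin 60 :=
  ⟨dg paT 7 g.val / 2 % 60, Nat.mod_lt _ (by norm_num)⟩

/-- the generator leading from the parent. -/
def pgF (g : Fin 60) : Fin 2 := ⟨dg paT 7 g.val % 2, Nat.mod_lt _ (by norm_num)⟩

set_option maxRecDepth 100000 in
theorem pv_pi : ∀ c : Fin 2, ∀ g : Fin 60, pvF c (piF c g) = g := by decide +kernel

set_option maxRecDepth 100000 in
theorem pi_pv : ∀ c : Fin 2, ∀ g : Fin 60, piF c (pvF c g) = g := by decide +kernel

set_option maxRecDepth 100000 in
theorem pm_pi : ∀ c : Fin 2, ∀ g : Fin 60, ∀ x : Fin 11, pm (piF c g) x = gen c (pm g x) := by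
  decide +kernel

set_option maxRecDepth 100000 in
theorem pm_zero : ∀ x : Fin 11, pm 0 x = x := by decide +kernel

set_option maxRecDepth 100000 in
theorem pa_spec : ∀ g : Fin 60, g ≠ 0 → paF g < g ∧ piF (pgF g) (paF g) = g := by
  decide +kernel

/-- left multiplication by a generator. -/
def pI (c : Fin 2) : Equiv.Perm (Fin 60) where
  toFun := piF c
  invFun := pvF c
  left_inv := pv_pi c
  right_inv := pi_pv c

/-- Generation. -/
theorem gen_ind (P : Fin 60 → Prop) (h0 : P 0) (hs : ∀ c g, P g → P (piF c g)) : ∀ g, P g := by
  have key : ∀ n : ℕ, ∀ g : Fin 60, g.val = n → P g := by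
    intro n
    induction n using Nat.strong_induction_on with
    | _ n ih =>
      intro g hg
      by_cases h : g = 0
      · rw [h]; exact h0
      · obtain ⟨h1, h2⟩ := pa_spec g h
        rw [← h2]
        exact hs _ _ (ih (paF g).val (by rw [← hg]; exact h1) _ rfl)
  exact fun g => key _ g rfl

theorem pm_inj (g : Fin 60) : Function.Injective (pm g) := by
  refine gen_ind (fun g => Function.Injective (pm g)) ?_ ?_ g
  · intro x y h
    rwa [pm_zero, pm_zero] at h
  · intro c g hg x y h
    rw [pm_pi, pm_pi] at h
    exact hg ((gen c).injective h)

/-- the types of the old vertices. -/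
def t0 (x : Fin 11) : ℕ := if x.val < 5 then 0 else 1

theorem t0_gen : ∀ c : Fin 2, ∀ x : Fin 11, t0 (gen c x) = t0 x := by decide +kernel

/-- roots of the two orbits. -/
def rt (x : Fin 11) : Fin 11 := if x.val < 5 then 0 else 5

theorem rt_reach : ∀ x : Fin 11, ∃ g : Fin 60, pm g (rt x) = x := by
  decide +kernel

/-! ### The new vertices -/

/-- The first new vertex of the copy `g`. -/
def v1 (g : Fin 60) : Fin 30 := ⟨dg
  124458276778220100404068623450412252651775810416802137213818912121393970951338740553666128125183635753803840
  6 g.val % 30, Nat.mod_lt _ (by norm_num)⟩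

/-- The second new vertex of the copy `g`. -/
def v2 (g : Fin 60) : Fin 30 := ⟨dg
  223278080456143651621335681134637294757570467150662528661046500886820702939303335458302121279235521590678604
  6 g.val % 30, Nat.mod_lt _ (by norm_num)⟩

/-- The class of the copy `g`. -/
def co (g : Fin 60) : Fin 15 := ⟨dg
  112990783184939803436990101269587386023502218218098226356037765271436137915934760256569955164189859854950464
  6 g.val % 15, Nat.mod_lt _ (by norm_num)⟩

/-- The class of the copies containing a new vertex. -/
def bl (i : Fin 30) : Fin 15 := ⟨dg
  220412357755854031785316637266226686057665951500607552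
  6 i.val % 15, Nat.mod_lt _ (by norm_num)⟩

/-- A copy with the given first new vertex. -/
def ga (i : Fin 30) : Fin 60 := ⟨dg
  996536441313723427386479381524960038619131797836668992
  6 i.val % 60, Nat.mod_lt _ (by norm_num)⟩

/-- A copy with the given second new vertex. -/
def gb (i : Fin 30) : Fin 60 := ⟨dg
  246234168840691885520542433213182365419857956776277068
  6 i.val % 60, Nat.mod_lt _ (by norm_num)⟩

/-- The action of the generators on the new vertices. -/
def wF (c : Fin 2) (i : Fin 30) : Fin 30 := ⟨dg
  591734853165034494340945766176168048125869383075782674126521998806504574291541853312448572690187906120175809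
  6 (30 * c.val + i.val) % 30, Nat.mod_lt _ (by norm_num)⟩

/-- The inverse action. -/
def uF (c : Fin 2) (i : Fin 30) : Fin 30 := ⟨dg
  894054762420822401043933765248273960471843840408295589224730780319782586273922648273182394622791269862383619
  6 (30 * c.val + i.val) % 30, Nat.mod_lt _ (by norm_num)⟩

/-- Right multiplication by the elements of the subgroup. -/
def mh (k : Fin 4) (g : Fin 60) : Fin 60 := ⟨dg
  2893572784430332510575666810725442253013988179852585433151502772358363481715827459333064941425423758164053593766505545043870156716342909733839921775162268988363801472245807295612705499609640307331809132766653487241622396670814143056028468307873854050899154718372308504564434576096849928508135909144565452740740367260026268651966191607496868217172202624093506811421192709268540069274142126282910569324484213440845791473195670206947392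
  6 (60 * k.val + g.val) % 60, Nat.mod_lt _ (by norm_num)⟩

set_option maxRecDepth 100000 in
theorem u_w : ∀ c : Fin 2, ∀ i : Fin 30, uF c (wF c i) = i := by decide +kernel

set_option maxRecDepth 100000 in
theorem w_u : ∀ c : Fin 2, ∀ i : Fin 30, wF c (uF c i) = i := by decide +kernel

set_option maxRecDepth 100000 in
theorem v1_pi : ∀ c : Fin 2, ∀ g : Fin 60, v1 (piF c g) = wF c (v1 g) := by decide +kernel

set_option maxRecDepth 100000 in
theorem v2_pi : ∀ c : Fin 2, ∀ g : Fin 60, v2 (piF c g) = wF c (v2 g) := by decide +kernel

set_option maxRecDepth 100000 in
theorem bl_pi : ∀ c : Fin 2, ∀ i : Fin 30, ∀ g : Fin 60,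
    (bl (wF c i) = co (piF c g)) = (bl i = co g) := by
  have key : ∀ c : Fin 2, ∀ i : Fin 30, ∀ g : Fin 60,
    (bl (wF c i) = co (piF c g)) ↔ (bl i = co g) := by decide +kernel
  exact fun c i g => propext (key c i g)

set_option maxRecDepth 100000 in
theorem v12 : ∀ g : Fin 60, v1 g ≠ v2 g ∧ bl (v1 g) = co g ∧ bl (v2 g) = co g := by
  decide +kernel

set_option maxRecDepth 100000 in
theorem bl_co : ∀ g : Fin 60, ∀ i : Fin 30, bl i = co g → i = v1 g ∨ i = v2 g := by
  decide +kernel

set_option maxRecDepth 100000 in
theorem ga_spec : ∀ i : Fin 30, v1 (ga i) = i ∧ v2 (gb i) = i := by decide +kernel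

set_option maxRecDepth 100000 in
theorem co_mh : ∀ g g' : Fin 60, co g = co g' → ∃ k : Fin 4, g' = mh k g := by
  decide +kernel

/-- the permutation of the new vertices. -/
def pW (c : Fin 2) : Equiv.Perm (Fin 30) where
  toFun := wF c
  invFun := uF c
  left_inv := u_w c
  right_inv := w_u c

end Pool.Agent.H702.EY
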